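import Mathlib

/-!
# Polynomial abelian pieces: common definitions
-/

open scoped Pointwise Classical

namespace Pool.Agent.Work.MP_4d2785_al

/-- Conjugation by a unit, as a linear endomorphism of the algebra. -/
noncomputable def ad (F : Type*) {S : Type*} [Field F] [Ring S] [Algebra F S] (u : Sˣ) :
    Module.End F S :=
  (LinearMap.mulLeft F (u : S)).comp (LinearMap.mulRight F ((u⁻¹ : Sˣ) : S))

/-- The units of `M` that lie, together with their inverses, in the subalgebra `R`. -/
def us {F M : Type*} [Field F] [Ring M] [Algebra F M] (R : Subalgebra F M) : Subgroup Mˣ :=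
  R.toSubmonoid.units

/-- The product set `A ^ n`. -/
noncomputable def pw {G : Type*} [Group G] (A : Finset G) (n : ℕ) : Finset G := A ^ n

/-- The elements of `A ^ n` in the set `S`. -/
noncomputable def pc {G : Type*} [Group G] (A : Finset G) (n : ℕ) (S : Set G) : Finset G :=
  (pw A n).filter (fun g => g ∈ S)

/-- Number of elements of `A ^ n` in the set `S`. -/
noncomputable def nc {G : Type*} [Group G] (A : Finset G) (n : ℕ) (S : Set G) : ℕ :=
  (pc A n S).card

/-- The orbit of `x` under conjugation by the elements of `A ^ 2` in `H`. -/
noncomputable def orb {G : Type*} [Group G] (A : Finset G) (H : Subgroup G) (x : G) : Finset G :=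
  (pc A 2 (H : Set G)).image (fun b => b * x * b⁻¹)

end Pool.Agent.Work.MP_4d2785_al
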