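import Mathlib
import Pool.Agent.Work.MP_4d2785_al.Defs

/-!
# Dichotomy: a matrix quotient of size at least two, or a nilpotent filtration
-/

set_option autoImplicit false

namespace Pool.Agent.Work.MP_4d2785_al

/-- the congruence subgroup of a two-sided ideal -/
def congruenceSubgroup {S : Type*} [Ring S] (I : Ideal S) [I.IsTwoSided] : Subgroup Sˣ where
  carrier := {u | (u : S) - 1 ∈ I}
  one_mem' := by simp
  mul_mem' := by
    intro u v hu hv
    have e : ((u * v : Sˣ) : S) - 1 = ((u : S) - 1) * (v : S) + ((v : S) - 1) := by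
      rw [Units.val_mul]; noncomm_ring
    change ((u * v : Sˣ) : S) - 1 ∈ I
    rw [e]
    exact I.add_mem (I.mul_mem_right _ hu) hv
  inv_mem' := by
    intro u hu
    have e : ((u⁻¹ : Sˣ) : S) - 1 = -(((u : S) - 1) * ((u⁻¹ : Sˣ) : S)) := by
      rw [sub_mul, Units.mul_inv, one_mul, neg_sub]
    change ((u⁻¹ : Sˣ) : S) - 1 ∈ I
    rw [e]
    exact I.neg_mem (I.mul_mem_right _ hu)

theorem mem_congruenceSubgroup {S : Type*} [Ring S] (I : Ideal S) [I.IsTwoSided] (u : Sˣ) :
    u ∈ congruenceSubgroup I ↔ (u : S) - 1 ∈ I := Iff.rfl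

theorem comm_sub_one {S : Type*} [Ring S] (a b : Sˣ) :
    ((a * b * a⁻¹ * b⁻¹ : Sˣ) : S) - 1 =
      ((a : S) * b - b * a) * (((a⁻¹ : Sˣ) : S) * ((b⁻¹ : Sˣ) : S)) := by
  rw [sub_mul, Units.val_mul, Units.val_mul, Units.val_mul]
  have e : (b : S) * a * (((a⁻¹ : Sˣ) : S) * ((b⁻¹ : Sˣ) : S)) = 1 := by
    rw [mul_assoc (b : S), ← mul_assoc (a : S), Units.mul_inv, one_mul, Units.mul_inv]
  rw [e]
  simp only [mul_assoc]

theorem dichotomy (F S : Type*) [Field F] [IsAlgClosed F] [Ring S] [Algebra F S]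
    [FiniteDimensional F S] :
    (∃ (k : ℕ) (π : S →ₐ[F] Matrix (Fin k) (Fin k) F), 2 ≤ k ∧ Function.Surjective π) ∨
    (∃ Γ : ℕ → Subgroup Sˣ, (∀ a b : Sˣ, a * b * a⁻¹ * b⁻¹ ∈ Γ 0) ∧
      (∀ j, ∀ a ∈ Γ 0, ∀ b ∈ Γ j, a * b * a⁻¹ * b⁻¹ ∈ Γ (j + 1)) ∧ ∃ N, Γ N = ⊥) := by
  have hart : IsArtinianRing S := IsArtinianRing.of_finite F S
  obtain ⟨r, n, hn, ⟨e⟩⟩ :=
    IsSemisimpleRing.exists_algEquiv_pi_matrix_of_isAlgClosed F (S ⧸ Ring.jacobson S)
  by_cases h : ∃ i, 2 ≤ n i
  · left
    obtain ⟨i, hi⟩ := h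
    refine ⟨n i, ((Pi.evalAlgHom F (fun i => Matrix (Fin (n i)) (Fin (n i)) F) i).comp
      e.toAlgHom).comp (Ideal.Quotient.mkₐ F (Ring.jacobson S)), hi, ?_⟩
    rw [AlgHom.coe_comp, AlgHom.coe_comp]
    refine (Function.Surjective.comp ?_ e.surjective).comp Ideal.Quotient.mk_surjective
    exact Function.surjective_eval i
  · right
    push Not at h
    have h1 : ∀ i, n i = 1 := fun i => by
      have := h i
      have := (hn i).out
      omega
    have hcomm : ∀ x y : S ⧸ Ring.jacobson S, x * y = y * x := by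
      intro x y
      apply e.injective
      rw [map_mul, map_mul]
      funext i
      rw [Pi.mul_apply, Pi.mul_apply]
      ext j k
      have : Subsingleton (Fin (n i)) := by rw [h1 i]; infer_instance
      rw [Matrix.mul_apply, Matrix.mul_apply]
      refine Finset.sum_congr rfl fun l _ => ?_
      rw [Subsingleton.elim j k, Subsingleton.elim l k, mul_comm]
    have hJ : ∀ a b : S, a * b - b * a ∈ Ring.jacobson S := by
      intro a b
      rw [← Ideal.Quotient.eq, map_mul, map_mul]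
      exact hcomm _ _
    refine ⟨fun j => congruenceSubgroup (Ring.jacobson S ^ (j + 1)), ?_, ?_, ?_⟩
    · intro a b
      rw [mem_congruenceSubgroup, comm_sub_one, zero_add, Submodule.pow_one]
      exact Ideal.mul_mem_right _ _ (hJ a b)
    · intro j a ha b hb
      rw [mem_congruenceSubgroup] at ha hb ⊢
      rw [zero_add, Submodule.pow_one] at ha
      rw [comm_sub_one]
      refine Ideal.mul_mem_right _ _ ?_
      have e : (a : S) * b - b * a = ((a : S) - 1) * ((b : S) - 1) - ((b : S) - 1) * ((a : S) - 1) := by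
        noncomm_ring
      rw [e]
      refine Ideal.sub_mem _ ?_ ?_
      · rw [Ideal.IsTwoSided.pow_succ]
        exact Ideal.mul_mem_mul ha hb
      · rw [Submodule.pow_succ]
        exact Ideal.mul_mem_mul hb ha
    · obtain ⟨N, hN⟩ := IsSemiprimaryRing.isNilpotent (R := S)
      refine ⟨N, ?_⟩
      rw [eq_bot_iff]
      intro u hu
      rw [mem_congruenceSubgroup, Ideal.IsTwoSided.pow_succ, hN] at hu
      have : (u : S) - 1 = 0 := by
        have h2 : Ring.jacobson S * 0 = (0 : Ideal S) := by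
          change Ring.jacobson S * ⊥ = ⊥
          exact Ideal.mul_bot _
        rw [h2] at hu
        exact hu
      rw [Subgroup.mem_bot]
      exact Units.ext (sub_eq_zero.1 this)

end Pool.Agent.Work.MP_4d2785_al
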