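import Mathlib
import Pool.Agent.Work.MP_4d2785_al.Defs

/-!
Generic element of a growing sequence of sets of units.
-/

namespace Pool.Agent.Work.MP_4d2785_al

open Module

section lin

variable {F V : Type*} [Field F] [AddCommGroup V] [Module F V]

/-- the unipotent part -/
abbrev gen (f : End F V) : Submodule F V := Module.End.maxGenEigenspace f 1

lemma mem_gen {f : End F V} {v : V} : v ∈ gen f ↔ ∃ k : ℕ, ((f - 1) ^ k) v = 0 := by
  rw [gen, Module.End.mem_maxGenEigenspace, one_smul]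

lemma gen_pow_le (f : End F V) (k : ℕ) : gen f ≤ gen (f ^ k) := by
  intro v hv
  rw [mem_gen] at hv ⊢
  obtain ⟨m, hm⟩ := hv
  refine ⟨m, ?_⟩
  have h1 : f ^ k - 1 = (∑ i ∈ Finset.range k, f ^ i) * (f - 1) := (geom_sum_mul f k).symm
  have hc : Commute (∑ i ∈ Finset.range k, f ^ i) (f - 1) :=
    (Commute.sum_left _ _ _ fun i _ => (Commute.refl f).pow_left i).sub_right
      (Commute.one_right _)
  rw [h1, hc.mul_pow, Module.End.mul_apply, hm, map_zero]

lemma gen_dvd_le (f : End F V) {a b : ℕ} (h : a ∣ b) : gen (f ^ a) ≤ gen (f ^ b) := by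
  obtain ⟨c, rfl⟩ := h
  rw [pow_mul]
  exact gen_pow_le _ c

lemma gen_stable {f g : End F V} (h : Commute f g) {v : V} (hv : v ∈ gen f) : g v ∈ gen f :=
  Module.End.mapsTo_maxGenEigenspace_of_comm h 1 hv

lemma pow_eig {f : End F V} {v : V} {a : F} (h : f v = a • v) (k : ℕ) :
    (f ^ k) v = a ^ k • v := by
  induction k with
  | zero => simp
  | succ k ih => rw [pow_succ, Module.End.mul_apply, h, map_smul, ih, smul_smul, pow_succ']

lemma eig_gen {f : End F V} {v : V} {a : F} (h : f v = a • v) (hv : v ∈ gen f) (h0 : v ≠ 0) :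
    a = 1 := by
  rw [mem_gen] at hv
  obtain ⟨k, hk⟩ := hv
  have h1 : (f - 1) v = (a - 1) • v := by
    rw [LinearMap.sub_apply, h, Module.End.one_apply, sub_smul, one_smul]
  rw [pow_eig h1] at hk
  rcases smul_eq_zero.1 hk with h2 | h2
  · exact sub_eq_zero.1 (pow_eq_zero_iff (n := k) (by rintro rfl; simp at h2) |>.1 h2)
  · exact absurd h2 h0

lemma fix_mem_gen {f : End F V} {v : V} (h : f v = v) : v ∈ gen f := by
  rw [mem_gen]
  refine ⟨1, ?_⟩
  rw [pow_one, LinearMap.sub_apply, h, Module.End.one_apply, sub_self]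

lemma exists_eig [IsAlgClosed F] [FiniteDimensional F V] (X : End F V) (U : Submodule F V)
    (hU : U ≠ ⊥) (hX : ∀ v ∈ U, X v ∈ U) : ∃ v ∈ U, v ≠ 0 ∧ ∃ μ : F, X v = μ • v := by
  have : Nontrivial U := Submodule.nontrivial_iff_ne_bot.2 hU
  obtain ⟨μ, hμ⟩ := Module.End.exists_eigenvalue (X.restrict hX)
  obtain ⟨w, hw⟩ := hμ.exists_hasEigenvector
  refine ⟨w, w.2, fun h => hw.2 (Subtype.ext h), μ, ?_⟩
  have := congrArg Subtype.val hw.apply_eq_smul
  simpa using this

lemma common_eig [IsAlgClosed F] [FiniteDimensional F V] {X Y : End F V} (h : Commute X Y)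
    (U : Submodule F V) (hU : U ≠ ⊥) (hX : ∀ v ∈ U, X v ∈ U) (hY : ∀ v ∈ U, Y v ∈ U) :
    ∃ v ∈ U, v ≠ 0 ∧ ∃ μ ν : F, X v = μ • v ∧ Y v = ν • v := by
  obtain ⟨v, hv, hv0, μ, hμ⟩ := exists_eig X U hU hX
  have hcomm : ∀ w, X (Y w) = Y (X w) := fun w => by
    rw [← Module.End.mul_apply, h.eq, Module.End.mul_apply]
  obtain ⟨w, hw, hw0, ν, hν⟩ := exists_eig Y (U ⊓ LinearMap.ker (X - μ • (1 : End F V))) (by
    intro hbot
    have : v ∈ U ⊓ LinearMap.ker (X - μ • (1 : End F V)) := by
      rw [Submodule.mem_inf]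
      refine ⟨hv, ?_⟩
      rw [LinearMap.mem_ker, LinearMap.sub_apply, hμ]
      simp
    rw [hbot] at this
    exact hv0 ((Submodule.mem_bot F).1 this)) (by
    intro w hw
    rw [Submodule.mem_inf] at hw ⊢
    obtain ⟨hw, hw2⟩ := hw
    refine ⟨hY w hw, ?_⟩
    rw [LinearMap.mem_ker, LinearMap.sub_apply, sub_eq_zero] at hw2 ⊢
    rw [hcomm, hw2]
    simp)
  rw [Submodule.mem_inf] at hw
  refine ⟨w, hw.1, hw0, μ, ν, ?_, hν⟩
  have := hw.2
  rw [LinearMap.mem_ker, LinearMap.sub_apply, sub_eq_zero] at this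
  rw [this]
  simp

lemma range_ker [FiniteDimensional F V] (g : End F V) {v : V} (h0 : g v = 0)
    (hv : v ∈ LinearMap.range (g ^ finrank F V)) : v = 0 := by
  obtain ⟨u, rfl⟩ := hv
  have h1 : (g ^ (finrank F V + 1)) u = 0 := by
    rw [pow_succ', Module.End.mul_apply]
    exact h0
  have h2 := Module.End.ker_pow_eq_ker_pow_finrank_of_le (f := g) (Nat.le_succ (finrank F V))
  have h3 : u ∈ LinearMap.ker (g ^ (finrank F V).succ) := h1
  rw [h2] at h3
  exact h3

lemma range_stable {g f : End F V} (h : Commute g f) {k : ℕ} {v : V}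
    (hv : v ∈ LinearMap.range (g ^ k)) : f v ∈ LinearMap.range (g ^ k) := by
  obtain ⟨u, rfl⟩ := hv
  refine ⟨f u, ?_⟩
  rw [← Module.End.mul_apply, ← Module.End.mul_apply, (h.pow_left k).eq]

/-- joint eigenvectors with distinct pairs of eigenvalues are few -/
lemma card_le_of_joint [FiniteDimensional F V] {X Y : End F V} (h : Commute X Y) {T : ℕ}
    (v : Fin T → V) (μ ν : Fin T → F) (h0 : ∀ n, v n ≠ 0) (hX : ∀ n, X (v n) = μ n • v n)
    (hY : ∀ n, Y (v n) = ν n • v n) (hne : ∀ m n, μ m = μ n → ν m = ν n → m = n) :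
    T ≤ finrank F V := by
  have hind := Module.End.independent_iInf_maxGenEigenspace_of_forall_mapsTo
    (R := F) (M := V) (f := (![X, Y] : Fin 2 → End F V)) (by
      intro i j φ
      apply Module.End.mapsTo_maxGenEigenspace_of_comm
      fin_cases i <;> fin_cases j
      · exact Commute.refl X
      · exact h.symm
      · exact h
      · exact Commute.refl Y)
  have hinj : Function.Injective (fun n : Fin T => (![μ n, ν n] : Fin 2 → F)) := by
    intro m n hmn
    have e0 := congrFun hmn 0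
    have e1 := congrFun hmn 1
    simp only [Matrix.cons_val_zero, Matrix.cons_val_one] at e0 e1
    exact hne m n e0 e1
  have hind2 := hind.comp hinj
  have hli : LinearIndependent F v := by
    apply hind2.linearIndependent _ (v := v) ?_ h0
    intro n
    simp only [Function.comp, Submodule.mem_iInf]
    intro i
    rw [Module.End.mem_maxGenEigenspace]
    refine ⟨1, ?_⟩
    rw [pow_one]
    fin_cases i
    · simp [hX n]
    · simp [hY n]
  have := hli.fintype_card_le_finrank
  rwa [Fintype.card_fin] at this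

lemma gen_eq_ker [FiniteDimensional F V] (f : End F V) :
    gen f = LinearMap.ker ((f - 1) ^ finrank F V) := by
  ext v
  rw [mem_gen, LinearMap.mem_ker]
  constructor
  · rintro ⟨k, hk⟩
    have h1 : v ∈ LinearMap.ker ((f - 1) ^ (k + finrank F V)) := by
      rw [LinearMap.mem_ker, add_comm, pow_add, Module.End.mul_apply, hk, map_zero]
    rw [Module.End.ker_pow_eq_ker_pow_finrank_of_le (by omega)] at h1
    exact h1
  · intro h
    exact ⟨_, h⟩

theorem step1 [IsAlgClosed F] [FiniteDimensional F V] {X Y : End F V} (h : Commute X Y)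
    {T M' : ℕ} (hT : finrank F V < T) (hM' : 1 ≤ M')
    (hd : ∀ n, 1 ≤ n → n ≤ T →
      finrank F (gen (X ^ (T.factorial * M'))) ≤ finrank F (gen ((X * Y ^ n) ^ M'))) :
    gen (X ^ (T.factorial * M')) ≤ gen (Y ^ (T.factorial * (T.factorial * M'))) := by
  classical
  obtain ⟨M, hM⟩ : ∃ M, M = T.factorial * M' := ⟨_, rfl⟩
  rw [← hM] at hd ⊢
  have hM1 : 1 ≤ M := by
    rw [hM]
    exact Nat.mul_pos (Nat.factorial_pos T) hM'
  obtain ⟨N, hN⟩ : ∃ N, N = finrank F V := ⟨_, rfl⟩
  have hXY : ∀ n : ℕ, Commute X (X * Y ^ n) := fun n =>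
    (Commute.refl X).mul_right (h.pow_right n)
  have hYY : ∀ n : ℕ, Commute Y (X * Y ^ n) := fun n =>
    h.symm.mul_right ((Commute.refl Y).pow_right n)
  -- eigenvector relations
  have heig : ∀ (n : ℕ) (v : V) (μ ν : F), X v = μ • v → Y v = ν • v →
      ((X * Y ^ n) ^ M') v = (μ * ν ^ n) ^ M' • v := by
    intro n v μ ν h1 h2
    apply pow_eig
    rw [Module.End.mul_apply, pow_eig h2, map_smul, h1, smul_smul, mul_comm]
  -- a good exponent
  obtain ⟨n, hn1, hnT, hn⟩ : ∃ n, 1 ≤ n ∧ n ≤ T ∧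
      gen ((X * Y ^ n) ^ M') ⊓ LinearMap.range ((X ^ M - 1) ^ N) = ⊥ := by
    by_contra hcon
    push Not at hcon
    have hex : ∀ n : Fin T, ∃ v : V, v ∈ gen ((X * Y ^ ((n : ℕ) + 1)) ^ M') ⊓
        LinearMap.range ((X ^ M - 1) ^ N) ∧ v ≠ 0 ∧ ∃ μ ν : F, X v = μ • v ∧ Y v = ν • v := by
      intro n
      apply common_eig h _ (hcon ((n : ℕ) + 1) (by omega) (by omega))
      · intro v hv
        rw [Submodule.mem_inf] at hv ⊢
        exact ⟨gen_stable ((hXY _).symm.pow_left M') hv.1,
          range_stable (((Commute.refl X).pow_left M).sub_left (Commute.one_left X)) hv.2⟩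
      · intro v hv
        rw [Submodule.mem_inf] at hv ⊢
        exact ⟨gen_stable ((hYY _).symm.pow_left M') hv.1,
          range_stable ((h.pow_left M).sub_left (Commute.one_left Y)) hv.2⟩
    choose v hv hv0 μ ν hμ hν using hex
    have h1 : ∀ n : Fin T, (μ n * ν n ^ ((n : ℕ) + 1)) ^ M' = 1 := by
      intro n
      exact eig_gen (heig _ _ _ _ (hμ n) (hν n)) (Submodule.mem_inf.1 (hv n)).1 (hv0 n)
    have h2 : ∀ n : Fin T, μ n ^ M ≠ 1 := by
      intro n hcon
      apply hv0 n
      apply range_ker (X ^ M - 1)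
      · rw [LinearMap.sub_apply, pow_eig (hμ n), hcon, one_smul, Module.End.one_apply, sub_self]
      · rw [← hN]
        exact (Submodule.mem_inf.1 (hv n)).2
    have hcard := card_le_of_joint h v μ ν hv0 hμ hν ?_
    · omega
    · -- distinct exponents give distinct pairs
      have key : ∀ m n : Fin T, (m : ℕ) < n → μ m = μ n → ν m = ν n → False := by
        intro m n hmn e1 e2
        have a1 := h1 m
        have a2 := h1 n
        rw [e1, e2] at a1
        have hd1 : ν n ^ (((n : ℕ) - m) * M') = 1 := by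
          have e3 : (n : ℕ) + 1 = ((n : ℕ) - m) + ((m : ℕ) + 1) := by omega
          rw [e3, pow_add] at a2
          have e4 : (μ n * (ν n ^ ((n : ℕ) - m) * ν n ^ ((m : ℕ) + 1))) ^ M' =
              (ν n ^ ((n : ℕ) - m)) ^ M' * (μ n * ν n ^ ((m : ℕ) + 1)) ^ M' := by
            rw [← mul_pow]
            congr 1
            ring
          rw [e4, a1, mul_one] at a2
          rw [pow_mul]
          exact a2
        have hd2 : ν n ^ M = 1 := by
          have hdvd : ((n : ℕ) - m) * M' ∣ M := by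
            rw [hM]
            exact Nat.mul_dvd_mul_right (Nat.dvd_factorial (by omega) (by omega)) M'
          obtain ⟨c, hc⟩ := hdvd
          rw [hc, pow_mul, hd1, one_pow]
        apply h2 n
        have a3 : (μ n * ν n ^ ((n : ℕ) + 1)) ^ M = 1 := by
          rw [hM, mul_comm T.factorial M', pow_mul, a2, one_pow]
        rw [mul_pow, ← pow_mul, mul_comm ((n : ℕ) + 1) M, pow_mul, hd2, one_pow, mul_one] at a3
        exact a3
      intro m n e1 e2
      rcases lt_trichotomy (m : ℕ) n with h3 | h3 | h3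
      · exact (key m n h3 e1 e2).elim
      · exact Fin.ext h3
      · exact (key n m h3 e1.symm e2.symm).elim
  -- G_n ≤ V'
  have hle : gen ((X * Y ^ n) ^ M') ≤ gen (X ^ M) := by
    intro w hw
    have h1 : ((X ^ M - 1) ^ N) w ∈ gen ((X * Y ^ n) ^ M') ⊓
        LinearMap.range ((X ^ M - 1) ^ N) := by
      rw [Submodule.mem_inf]
      refine ⟨?_, ⟨w, rfl⟩⟩
      apply gen_stable _ hw
      exact (((((hXY n).symm.pow_left M').pow_right M).sub_right (Commute.one_right _))).pow_right N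
    rw [hn, Submodule.mem_bot] at h1
    rw [mem_gen]
    exact ⟨N, h1⟩
  have heq : gen ((X * Y ^ n) ^ M') = gen (X ^ M) :=
    Submodule.eq_of_le_of_finrank_le hle (hd n hn1 hnT)
  -- the conclusion
  intro w hw
  have hYX : Commute (X ^ M) Y := h.pow_left M
  have hbot : gen (X ^ M) ⊓ LinearMap.range ((Y ^ (T.factorial * M) - 1) ^ N) = ⊥ := by
    by_contra hcon
    obtain ⟨v, hv, hv0, μ, ν, hμ, hν⟩ := common_eig h _ hcon
      (by
        intro v hv
        rw [Submodule.mem_inf] at hv ⊢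
        exact ⟨gen_stable ((Commute.refl X).pow_left M) hv.1,
          range_stable ((h.symm.pow_left _).sub_left (Commute.one_left X)) hv.2⟩)
      (by
        intro v hv
        rw [Submodule.mem_inf] at hv ⊢
        exact ⟨gen_stable hYX hv.1,
          range_stable (((Commute.refl Y).pow_left _).sub_left (Commute.one_left Y)) hv.2⟩)
    rw [Submodule.mem_inf] at hv
    have b1 : μ ^ M = 1 := eig_gen (pow_eig hμ M) hv.1 hv0
    have b2 : (μ * ν ^ n) ^ M' = 1 :=
      eig_gen (heig _ _ _ _ hμ hν) (by rw [heq]; exact hv.1) hv0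
    have b3 : (μ * ν ^ n) ^ M = 1 := by
      rw [hM, mul_comm T.factorial M', pow_mul, b2, one_pow]
    rw [mul_pow, b1, one_mul, ← pow_mul] at b3
    have b4 : ν ^ (T.factorial * M) = 1 := by
      obtain ⟨c, hc⟩ := Nat.mul_dvd_mul_right (Nat.dvd_factorial hn1 hnT) M
      rw [hc, pow_mul, b3, one_pow]
    apply hv0
    apply range_ker (Y ^ (T.factorial * M) - 1)
    · rw [LinearMap.sub_apply, pow_eig hν, b4, one_smul, Module.End.one_apply, sub_self]
    · rw [← hN]
      exact hv.2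
  have h1 : ((Y ^ (T.factorial * M) - 1) ^ N) w ∈ gen (X ^ M) ⊓
      LinearMap.range ((Y ^ (T.factorial * M) - 1) ^ N) := by
    rw [Submodule.mem_inf]
    refine ⟨?_, ⟨w, rfl⟩⟩
    apply gen_stable _ hw
    exact ((hYX.pow_right _).sub_right (Commute.one_right _)).pow_right N
  rw [hbot, Submodule.mem_bot] at h1
  rw [mem_gen]
  exact ⟨N, h1⟩

end lin

section ad

variable {F S : Type*} [Field F] [Ring S] [Algebra F S]

lemma ad_apply (u : Sˣ) (z : S) : ad F u z = (u : S) * z * ((u⁻¹ : Sˣ) : S) := by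
  simp [ad, mul_assoc]

lemma ad_mul (u v : Sˣ) : ad F (u * v) = ad F u * ad F v := by
  ext z
  rw [Module.End.mul_apply, ad_apply, ad_apply, ad_apply]
  simp [mul_assoc]

lemma ad_one : ad F (1 : Sˣ) = 1 := by
  ext z
  rw [ad_apply]
  simp

lemma ad_pow (u : Sˣ) (n : ℕ) : ad F (u ^ n) = ad F u ^ n := by
  induction n with
  | zero => rw [pow_zero, pow_zero, ad_one]
  | succ n ih => rw [pow_succ, pow_succ, ad_mul, ih]

end ad

theorem exists_generic (F S : Type*) [Field F] [IsAlgClosed F] [Ring S] [Algebra F S]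
    [FiniteDimensional F S] (D : ℕ) (hD : Module.finrank F S ≤ D) (E : ℕ → Set Sˣ)
    (h1 : (1 : Sˣ) ∈ E 0) (hmono : Monotone E)
    (hmul : ∀ l x y, x ∈ E l → y ∈ E 4 → x * y ∈ E (l + 4)) :
    ∃ x ∈ E (4 * (D + 1) ^ 2), ∀ y ∈ E 4, y * x = x * y →
      ∀ z : S, (x : S) * z = z * (x : S) →
        z ∈ Module.End.maxGenEigenspace ((ad F y) ^ ((D + 1).factorial ^ (D + 2))) 1 := by
  classical
  obtain ⟨T, hT⟩ : ∃ T, T = D + 1 := ⟨_, rfl⟩
  -- dimension function
  obtain ⟨d, hd⟩ : ∃ d : Sˣ → ℕ → ℕ, ∀ g i,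
      d g i = finrank F (gen ((ad F g) ^ (T.factorial ^ i))) := ⟨fun g i => _, fun g i => rfl⟩
  have hdD : ∀ g i, d g i ≤ D := fun g i => by
    rw [hd]
    exact (Submodule.finrank_le _).trans hD
  have hdmono : ∀ g i, d g i ≤ d g (i + 1) := fun g i => by
    rw [hd, hd]
    apply Submodule.finrank_mono
    apply gen_dvd_le
    exact pow_dvd_pow _ (Nat.le_succ i)
  -- minimisers
  have hmin : ∀ j, ∃ g ∈ E (4 * T * j), ∀ g' ∈ E (4 * T * j), d g (D + 1 - j) ≤ d g' (D + 1 - j) := by
    intro j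
    have hne : ∃ m, ∃ g ∈ E (4 * T * j), d g (D + 1 - j) = m :=
      ⟨_, 1, hmono (Nat.zero_le _) h1, rfl⟩
    obtain ⟨g, hg, hgm⟩ := Nat.find_spec hne
    refine ⟨g, hg, fun g' hg' => ?_⟩
    rw [hgm]
    exact Nat.find_min' hne ⟨g', hg', rfl⟩
  choose g hg hgmin using hmin
  obtain ⟨c, hc⟩ : ∃ c : ℕ → ℕ, ∀ j, c j = d (g j) (D + 1 - j) := ⟨fun j => _, fun j => rfl⟩
  have hanti : ∀ j, j ≤ D → c (j + 1) ≤ c j := by
    intro j hj
    rw [hc, hc]
    refine (hgmin (j + 1) (g j) (hmono ?_ (hg j))).trans ?_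
    · exact Nat.mul_le_mul_left _ (Nat.le_succ j)
    · have e : D + 1 - j = (D + 1 - (j + 1)) + 1 := by omega
      rw [e]
      exact hdmono _ _
  obtain ⟨j, hjD, hj⟩ : ∃ j, j ≤ D ∧ c (j + 1) = c j := by
    by_contra hcon
    push Not at hcon
    have h2 : ∀ j, j ≤ D + 1 → c j + j ≤ D := by
      intro j
      induction j with
      | zero => intro _; rw [hc]; exact hdD _ _
      | succ j ih =>
        intro hj
        have h3 := ih (by omega)
        have h4 := hanti j (by omega)
        have h5 := hcon j (by omega)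
        omega
    have := h2 (D + 1) le_rfl
    omega
  refine ⟨g j, hmono ?_ (hg j), ?_⟩
  · rw [hT]
    calc 4 * (D + 1) * j ≤ 4 * (D + 1) * (D + 1) := Nat.mul_le_mul_left _ (by omega)
      _ = 4 * (D + 1) ^ 2 := by ring
  intro y hy hcomm z hz
  have hpow : ∀ n, g j * y ^ n ∈ E (4 * T * j + 4 * n) := by
    intro n
    induction n with
    | zero => simpa using hg j
    | succ n ih =>
      rw [pow_succ, ← mul_assoc]
      have := hmul _ _ _ ih hy
      rwa [show 4 * T * j + 4 * n + 4 = 4 * T * j + 4 * (n + 1) by ring] at this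
  have hXY : Commute (ad F (g j)) (ad F y) := by
    rw [Commute, SemiconjBy, ← ad_mul, ← ad_mul, hcomm]
  have hstep := step1 (F := F) (V := S) hXY (T := T) (M' := T.factorial ^ (D - j)) (by omega)
    (Nat.one_le_pow _ _ (Nat.factorial_pos T)) (by
      intro n hn1 hnT
      have h2 : g j * y ^ n ∈ E (4 * T * (j + 1)) := by
        apply hmono _ (hpow n)
        calc 4 * T * j + 4 * n ≤ 4 * T * j + 4 * T := by omega
          _ = 4 * T * (j + 1) := by ring
      have h3 := hgmin (j + 1) _ h2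
      rw [← hc, hj, hc, hd, hd, ad_mul, ad_pow] at h3
      rw [← pow_succ', show D - j + 1 = D + 1 - j by omega]
      rwa [show D + 1 - (j + 1) = D - j by omega] at h3)
  have hzX : z ∈ gen ((ad F (g j)) ^ (T.factorial * T.factorial ^ (D - j))) := by
    apply gen_pow_le
    apply fix_mem_gen
    rw [ad_apply, hz, mul_assoc, Units.mul_inv, mul_one]
  have h4 := hstep hzX
  have h5 : gen ((ad F y) ^ (T.factorial * (T.factorial * T.factorial ^ (D - j)))) ≤
      gen ((ad F y) ^ (T.factorial ^ (D + 2))) := by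
    apply gen_dvd_le
    rw [← pow_succ', ← pow_succ']
    exact pow_dvd_pow _ (by omega)
  have h6 := h5 h4
  rw [hT] at h6
  exact h6

end Pool.Agent.Work.MP_4d2785_al
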