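import Mathlib
import Pool.Agent.Work.MP_4d2785_al.Defs

/-!
# Matrices whose products have all eigenvalue ratios roots of unity lie on few lines
-/

open scoped Classical
open Matrix Polynomial

namespace Pool.Agent.Work.MP_4d2785_al

namespace Lines

variable {F : Type*} [Field F] {k : ℕ}

/-- a root of the characteristic polynomial has an eigenvector -/
theorem exists_right (P : Matrix (Fin k) (Fin k) F) {a : F} (ha : P.charpoly.IsRoot a) :
    ∃ v : Fin k → F, v ≠ 0 ∧ P *ᵥ v = a • v := by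
  have h1 : (Matrix.scalar (Fin k) a - P).det = 0 := by
    rw [Polynomial.IsRoot, Matrix.eval_charpoly] at ha
    exact ha
  obtain ⟨v, hv, h⟩ := Matrix.exists_mulVec_eq_zero_iff.mpr h1
  refine ⟨v, hv, ?_⟩
  rw [Matrix.sub_mulVec, sub_eq_zero] at h
  rw [← h]
  ext i
  simp [Matrix.mulVec, dotProduct, Matrix.scalar_apply, Matrix.diagonal_apply]

theorem exists_left (P : Matrix (Fin k) (Fin k) F) {a : F} (ha : P.charpoly.IsRoot a) :
    ∃ w : Fin k → F, w ≠ 0 ∧ w ᵥ* P = a • w := by
  rw [← Matrix.charpoly_transpose] at ha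
  obtain ⟨w, hw, h⟩ := exists_right Pᵀ ha
  exact ⟨w, hw, by rw [← h, Matrix.mulVec_transpose]⟩

/-- all ratios of roots of the characteristic polynomial are roots of unity of order `m` -/
theorem root_pow_eq (P : (Matrix (Fin k) (Fin k) F)ˣ) {m : ℕ}
    (hu : ∀ N : Matrix (Fin k) (Fin k) F,
      N ∈ Module.End.maxGenEigenspace ((ad F P) ^ m) 1) {a b : F}
    (ha : (P : Matrix (Fin k) (Fin k) F).charpoly.IsRoot a)
    (hb : (P : Matrix (Fin k) (Fin k) F).charpoly.IsRoot b) : a ^ m = b ^ m := by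
  obtain ⟨v, hv, h1⟩ := exists_right _ ha
  obtain ⟨w, hw, h2⟩ := exists_left _ hb
  -- `b` is not zero
  have hPi : (P : Matrix (Fin k) (Fin k) F) * ((P⁻¹ : (Matrix (Fin k) (Fin k) F)ˣ) :
      Matrix (Fin k) (Fin k) F) = 1 := Units.mul_inv P
  have h3 : b • (w ᵥ* ((P⁻¹ : (Matrix (Fin k) (Fin k) F)ˣ) : Matrix (Fin k) (Fin k) F)) = w := by
    rw [← Matrix.smul_vecMul, ← h2, Matrix.vecMul_vecMul, hPi, Matrix.vecMul_one]
  have hb0 : b ≠ 0 := by
    rintro rfl
    rw [zero_smul] at h3
    exact hw h3.symm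
  set N : Matrix (Fin k) (Fin k) F := Matrix.vecMulVec v w with hN
  have hN0 : N ≠ 0 := by
    obtain ⟨i, hi⟩ := Function.ne_iff.mp hv
    obtain ⟨j, hj⟩ := Function.ne_iff.mp hw
    intro h
    have h4 := congrFun (congrFun h i) j
    rw [hN, Matrix.vecMulVec_apply] at h4
    simp at h4
    rcases h4 with h4 | h4
    · exact hi h4
    · exact hj h4
  have hw' : w ᵥ* ((P⁻¹ : (Matrix (Fin k) (Fin k) F)ˣ) : Matrix (Fin k) (Fin k) F) = b⁻¹ • w := by
    conv_rhs => rw [← h3]
    rw [smul_smul, inv_mul_cancel₀ hb0, one_smul]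
  have had : ad F P N = (a * b⁻¹) • N := by
    show (P : Matrix (Fin k) (Fin k) F) * (N * ((P⁻¹ : (Matrix (Fin k) (Fin k) F)ˣ) :
      Matrix (Fin k) (Fin k) F)) = _
    rw [hN, Matrix.vecMulVec_mul, Matrix.mul_vecMulVec, h1, hw']
    ext i j
    simp only [Matrix.vecMulVec_apply, Pi.smul_apply, smul_eq_mul, Matrix.smul_apply]
    ring
  have hpow : ∀ r : ℕ, ((ad F P) ^ r) N = ((a * b⁻¹) ^ r) • N := by
    intro r
    induction r with
    | zero => simp
    | succ r ih =>
      rw [pow_succ', Module.End.mul_apply, ih, map_smul, had, smul_smul, ← pow_succ]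
  obtain ⟨r, hr⟩ := Module.End.mem_maxGenEigenspace _ _ _ |>.mp (hu N)
  set c : F := (a * b⁻¹) ^ m with hc
  have h5 : ∀ r : ℕ, (((ad F P) ^ m - (1 : F) • 1) ^ r) N = ((c - 1) ^ r) • N := by
    intro r
    induction r with
    | zero => simp
    | succ r ih =>
      rw [pow_succ', Module.End.mul_apply, ih, map_smul, LinearMap.sub_apply, hpow m,
        LinearMap.smul_apply, Module.End.one_apply, ← sub_smul, smul_smul, ← pow_succ]
  rw [h5 r] at hr
  have h6 : (c - 1) ^ r = 0 := by
    rcases smul_eq_zero.mp hr with h | h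
    · exact h
    · exact absurd h hN0
  have h7 : c = 1 := sub_eq_zero.mp (eq_zero_of_pow_eq_zero h6)
  rw [hc, mul_pow, inv_pow] at h7
  have hbm : b ^ m ≠ 0 := pow_ne_zero _ hb0
  field_simp at h7
  exact h7

/-- sums of `k` elements of `μ` -/
noncomputable def sums (μ : Finset F) (k : ℕ) : Finset F :=
  (Fintype.piFinset (fun _ : Fin k => μ)).image (fun f => ∑ i, f i)

theorem card_sums_le (μ : Finset F) (k : ℕ) : (sums μ k).card ≤ μ.card ^ k := by
  refine Finset.card_image_le.trans ?_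
  simp

theorem sum_mem_sums (μ : Finset F) (s : Multiset F) (hs : ∀ x ∈ s, x ∈ μ) {k : ℕ}
    (hk : Multiset.card s = k) : s.sum ∈ sums μ k := by
  subst hk
  induction s using Quotient.inductionOn with
  | h l =>
    simp only [Multiset.quot_mk_to_coe, Multiset.sum_coe, Multiset.coe_card]
    refine Finset.mem_image.mpr ⟨fun i => l.get i, ?_, ?_⟩
    · rw [Fintype.mem_piFinset]
      intro i
      exact hs _ (by simp)
    · simp [← List.sum_ofFn]

end Lines

open Lines in
theorem few_lines {F ι : Type*} [Field F] [IsAlgClosed F] {k m : ℕ} (hk : 1 ≤ k) (hm : 1 ≤ m)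
    (B : Finset ι) (hB : B.Nonempty) (p : ι → (Matrix (Fin k) (Fin k) F)ˣ)
    (hspan : Submodule.span F ((fun i => (p i : Matrix (Fin k) (Fin k) F)) '' (B : Set ι)) = ⊤)
    (hu : ∀ y ∈ B, ∀ b ∈ B, ∀ N : Matrix (Fin k) (Fin k) F,
      N ∈ Module.End.maxGenEigenspace ((ad F (p y * p b)) ^ m) 1) :
    ∃ y₀ ∈ B, B.card ≤ (k * m) ^ (k ^ 3) *
      (B.filter (fun y => ∃ c : F, (p y : Matrix (Fin k) (Fin k) F) =
        c • (p y₀ : Matrix (Fin k) (Fin k) F))).card := by
  -- the k-th roots of the determinants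
  have hdet : ∀ y, ((p y : Matrix (Fin k) (Fin k) F)).det ≠ 0 := by
    intro y
    exact ((Matrix.isUnit_iff_isUnit_det _).mp (p y).isUnit).ne_zero
  have hex : ∀ y, ∃ r : F, r ^ k = ((p y : Matrix (Fin k) (Fin k) F)).det := fun y =>
    IsAlgClosed.exists_pow_nat_eq _ hk
  choose ρ hρ using hex
  have hρ0 : ∀ y, ρ y ≠ 0 := by
    intro y h
    apply hdet y
    rw [← hρ y, h, zero_pow (by omega)]
  have hkm : 0 < k * m := Nat.mul_pos hk hm
  set μ : Finset F := nthRootsFinset (k * m) (1 : F) with hμ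
  have hμc : μ.card ≤ k * m := by
    rw [hμ, nthRootsFinset_def]
    exact (Multiset.toFinset_card_le _).trans (Polynomial.card_nthRoots _ _)
  -- normalised traces lie in a small set
  have hT : ∀ y ∈ B, ∀ b ∈ B, ((p y : Matrix (Fin k) (Fin k) F) * p b).trace / (ρ y * ρ b) ∈
      sums μ k := by
    intro y hy b hb
    set P : (Matrix (Fin k) (Fin k) F)ˣ := p y * p b with hP
    have hPv : (P : Matrix (Fin k) (Fin k) F) = (p y : Matrix (Fin k) (Fin k) F) * p b := by
      rw [hP, Units.val_mul]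
    rw [← hPv]
    have hrr : ∀ a ∈ (P : Matrix (Fin k) (Fin k) F).charpoly.roots,
        a ^ (k * m) = (ρ y * ρ b) ^ (k * m) := by
      intro a ha
      have hda : (P : Matrix (Fin k) (Fin k) F).det = (ρ y * ρ b) ^ k := by
        rw [hPv, Matrix.det_mul, ← hρ y, ← hρ b, mul_pow]
      have h1 : (P : Matrix (Fin k) (Fin k) F).det ^ m = (a ^ m) ^ k := by
        rw [Matrix.det_eq_prod_roots_charpoly, ← Multiset.map_id' ((P : Matrix (Fin k) (Fin k)
          F).charpoly.roots), ← Multiset.prod_map_pow, Multiset.map_congr rfl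
          (fun b' hb' => root_pow_eq P (hu y hy b hb) (isRoot_of_mem_roots hb')
            (isRoot_of_mem_roots ha)), Multiset.map_const', Multiset.prod_replicate]
        congr 1
        rw [(IsAlgClosed.splits _).natDegree_eq_card_roots.symm,
          Matrix.charpoly_natDegree_eq_dim, Fintype.card_fin]
      rw [hda] at h1
      rw [mul_comm k m, pow_mul, ← h1, ← pow_mul, mul_comm k m]
    have h2 : (P : Matrix (Fin k) (Fin k) F).trace / (ρ y * ρ b) =
        ((P : Matrix (Fin k) (Fin k) F).charpoly.roots.map (fun a => a / (ρ y * ρ b))).sum := by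
      rw [Matrix.trace_eq_sum_roots_charpoly, Multiset.sum_map_div, Multiset.map_id']
    rw [h2]
    refine sum_mem_sums μ _ ?_ ?_
    · intro x hx
      obtain ⟨a, ha, rfl⟩ := Multiset.mem_map.mp hx
      rw [hμ, mem_nthRootsFinset hkm, div_pow, hrr a ha, div_self]
      exact pow_ne_zero _ (mul_ne_zero (hρ0 y) (hρ0 b))
    · rw [Multiset.card_map, (IsAlgClosed.splits _).natDegree_eq_card_roots.symm,
        Matrix.charpoly_natDegree_eq_dim, Fintype.card_fin]
  -- a basis
  obtain ⟨f, hfs, hfspan, -⟩ := Submodule.exists_fun_fin_finrank_span_eq F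
    ((fun i => (p i : Matrix (Fin k) (Fin k) F)) '' (B : Set ι))
  have hdk : Module.finrank F (Submodule.span F
      ((fun i => (p i : Matrix (Fin k) (Fin k) F)) '' (B : Set ι))) = k * k := by
    rw [hspan, finrank_top, Module.finrank_matrix]
    simp
  generalize Module.finrank F (Submodule.span F
      ((fun i => (p i : Matrix (Fin k) (Fin k) F)) '' (B : Set ι))) = d at f hdk
  choose g hgB hg using hfs
  have hgB' : ∀ i, g i ∈ B := fun i => Finset.mem_coe.mp (hgB i)
  -- the map
  set Ψ : ι → (Fin d → F) := fun y i =>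
    ((p y : Matrix (Fin k) (Fin k) F) * p (g i)).trace / (ρ y * ρ (g i)) with hΨ
  set T : Finset (Fin d → F) := Fintype.piFinset (fun _ => sums μ k) with hTdef
  have hTc : T.card ≤ (k * m) ^ (k ^ 3) := by
    rw [hTdef, Fintype.card_piFinset, Finset.prod_const, Finset.card_univ, Fintype.card_fin, hdk]
    calc (sums μ k).card ^ (k * k) ≤ ((k * m) ^ k) ^ (k * k) :=
          Nat.pow_le_pow_left ((card_sums_le μ k).trans (Nat.pow_le_pow_left hμc k)) _
      _ = (k * m) ^ (k ^ 3) := by rw [← pow_mul]; congr 1; ring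
  obtain ⟨y₀, hy₀, hmax⟩ := Finset.exists_max_image B
    (fun y => (B.filter (fun z => Ψ z = Ψ y)).card) hB
  refine ⟨y₀, hy₀, ?_⟩
  have hmaps : ∀ a ∈ B, Ψ a ∈ T := by
    intro a ha
    rw [hTdef, Fintype.mem_piFinset]
    intro i
    exact hT a ha (g i) (hgB' i)
  have h1 := Finset.card_le_mul_card_image_of_maps_to hmaps
    (B.filter (fun z => Ψ z = Ψ y₀)).card (by
      intro t ht
      by_cases hne : (B.filter (fun z => Ψ z = t)).Nonempty
      · obtain ⟨y, hy⟩ := hne
        obtain ⟨hyB, rfl⟩ := Finset.mem_filter.mp hy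
        exact hmax y hyB
      · rw [Finset.not_nonempty_iff_eq_empty] at hne
        rw [hne]
        simp)
  refine h1.trans ?_
  rw [mul_comm]
  refine Nat.mul_le_mul hTc (Finset.card_le_card ?_)
  intro y hy
  obtain ⟨hyB, hyΨ⟩ := Finset.mem_filter.mp hy
  refine Finset.mem_filter.mpr ⟨hyB, ρ y / ρ y₀, ?_⟩
  -- the difference is orthogonal to everything
  set X : Matrix (Fin k) (Fin k) F := (ρ y)⁻¹ • (p y : Matrix (Fin k) (Fin k) F) -
    (ρ y₀)⁻¹ • (p y₀ : Matrix (Fin k) (Fin k) F) with hX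
  have hXi : ∀ i, (X * f i).trace = 0 := by
    intro i
    have h2 := congrFun hyΨ i
    simp only [hΨ] at h2
    rw [← hg i, hX, sub_mul, Matrix.trace_sub, smul_mul_assoc, smul_mul_assoc,
      Matrix.trace_smul, Matrix.trace_smul, smul_eq_mul, smul_eq_mul]
    have h3 := hρ0 (g i)
    have h4 := hρ0 y
    have h5 := hρ0 y₀
    field_simp at h2
    field_simp
    linear_combination h2
  have hXall : ∀ Z : Matrix (Fin k) (Fin k) F, (X * Z).trace = 0 := by
    intro Z
    have hZ : Z ∈ Submodule.span F (Set.range f) := by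
      rw [hfspan, hspan]
      exact Submodule.mem_top
    induction hZ using Submodule.span_induction with
    | mem x hx => obtain ⟨i, rfl⟩ := hx; exact hXi i
    | zero => simp
    | add x y _ _ hx hy => rw [mul_add, Matrix.trace_add, hx, hy, add_zero]
    | smul a x _ hx => rw [mul_smul_comm, Matrix.trace_smul, hx, smul_zero]
  have hX0 : X = 0 := by
    ext i j
    have h2 := hXall (Matrix.single j i 1)
    rw [Matrix.trace] at h2
    rw [Finset.sum_eq_single i] at h2
    · simpa [Matrix.mul_apply, Matrix.single_apply] using h2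
    · intro l _ hl
      simp [Matrix.mul_apply, Ne.symm hl]
    · simp
  have h4 := hρ0 y
  have h5 := hρ0 y₀
  rw [hX, sub_eq_zero] at hX0
  have h6 := congrArg (fun M => ρ y • M) hX0
  simp only [smul_smul] at h6
  rw [mul_inv_cancel₀ h4, one_smul] at h6
  rw [h6, div_eq_mul_inv]

end Pool.Agent.Work.MP_4d2785_al
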