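import Mathlib
import Pool.Agent.Work.MP_4d2785_al.Defs

/-!
# Approximate groups: covering, orbits, chains of centralisers
-/

open scoped Pointwise Classical

namespace Pool.Agent.Work.MP_4d2785_al

section Group

variable {G : Type*} [Group G] {A : Finset G} {K : ℝ}

theorem mem_pc {n : ℕ} {S : Set G} {g : G} : g ∈ pc A n S ↔ g ∈ pw A n ∧ g ∈ S := by
  unfold pc; rw [Finset.mem_filter]

theorem coe_pw (A : Finset G) (n : ℕ) : (pw A n : Set G) = (A : Set G) ^ n := by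
  unfold pw
  exact Finset.coe_pow A n

theorem mem_orb {H : Subgroup G} {x g : G} :
    g ∈ orb A H x ↔ ∃ b, b ∈ pw A 2 ∧ b ∈ H ∧ b * x * b⁻¹ = g := by
  unfold orb
  rw [Finset.mem_image]
  constructor
  · rintro ⟨b, hb, h⟩
    rw [mem_pc] at hb
    exact ⟨b, hb.1, hb.2, h⟩
  · rintro ⟨b, hb, hbH, h⟩
    exact ⟨b, mem_pc.mpr ⟨hb, hbH⟩, h⟩

theorem nc_mono {n : ℕ} {S T : Set G} (h : ∀ g ∈ pw A n, g ∈ S → g ∈ T) :
    nc A n S ≤ nc A n T := by
  apply Finset.card_le_card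
  intro g hg
  rw [mem_pc] at hg ⊢
  exact ⟨hg.1, h g hg.1 hg.2⟩

/-- A finite subset of `A ^ n` has a large piece inside one left translate of `A ^ 2`. -/
theorem cover (hA : IsApproximateSubgroup K (A : Set G)) {n : ℕ} (hn : 1 ≤ n) {Y : Finset G}
    (hY : Y ⊆ pw A n) (hne : Y.Nonempty) :
    ∃ y₀ ∈ Y, (Y.card : ℝ) ≤ K ^ (n - 1) * (Y.filter (fun y => y₀⁻¹ * y ∈ pw A 2)).card := by
  obtain ⟨X, hX, hAX⟩ := hA.sq_covBySMul
  have h1 : (A : Set G) ^ n ⊆ (X : Set G) ^ (n - 1) * (A : Set G) :=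
    Set.pow_subset_pow_mul_of_sq_subset_mul hAX (by omega)
  have h2 : ∀ y ∈ Y, ∃ f ∈ X ^ (n - 1), f⁻¹ * y ∈ A := by
    intro y hy
    have h3 : y ∈ (A : Set G) ^ n := by
      have := hY hy
      rw [← Finset.mem_coe, pw, Finset.coe_pow] at this
      exact this
    obtain ⟨f, hf, a, ha, hfa⟩ := h1 h3
    refine ⟨f, ?_, ?_⟩
    · rw [← Finset.mem_coe, Finset.coe_pow]; exact hf
    · have : f⁻¹ * y = a := by rw [← hfa]; simp
      rw [this]; exact ha
  choose! f hf hfA using h2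
  have hK : 1 ≤ K := hA.one_le
  have hXc : ((X ^ (n - 1)).card : ℝ) ≤ K ^ (n - 1) := by
    calc ((X ^ (n - 1)).card : ℝ) ≤ (X.card : ℝ) ^ (n - 1) := by exact_mod_cast Finset.card_pow_le
      _ ≤ K ^ (n - 1) := by gcongr
  -- pigeonhole
  have h4 : ∃ t ∈ X ^ (n - 1), (Y.card : ℝ) ≤ K ^ (n - 1) * (Y.filter (fun y => f y = t)).card := by
    by_contra hcon
    push Not at hcon
    have hXne : (X ^ (n - 1)).Nonempty := by
      obtain ⟨y, hy⟩ := hne
      exact ⟨f y, hf y hy⟩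
    have h5 : (Y.card : ℝ) = ∑ t ∈ X ^ (n - 1), ((Y.filter (fun y => f y = t)).card : ℝ) := by
      have := Finset.card_eq_sum_card_fiberwise (s := Y) (t := X ^ (n - 1)) (f := f)
        (fun y hy => hf y hy)
      exact_mod_cast this
    have h6 : ∑ t ∈ X ^ (n - 1), K ^ (n - 1) * ((Y.filter (fun y => f y = t)).card : ℝ)
        < ∑ t ∈ X ^ (n - 1), (Y.card : ℝ) := by
      apply Finset.sum_lt_sum_of_nonempty hXne
      intro t ht
      exact hcon t ht
    rw [← Finset.mul_sum, ← h5, Finset.sum_const, nsmul_eq_mul] at h6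
    have h7 : ((X ^ (n - 1)).card : ℝ) * Y.card ≤ K ^ (n - 1) * Y.card := by gcongr
    linarith
  obtain ⟨t, ht, htY⟩ := h4
  have hfib : (Y.filter (fun y => f y = t)).Nonempty := by
    rw [Finset.nonempty_iff_ne_empty]
    intro h0
    rw [h0] at htY
    simp only [Finset.card_empty, Nat.cast_zero, mul_zero] at htY
    have : 0 < (Y.card : ℝ) := by exact_mod_cast Finset.card_pos.mpr hne
    linarith
  obtain ⟨y₀, hy₀⟩ := hfib
  rw [Finset.mem_filter] at hy₀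
  refine ⟨y₀, hy₀.1, htY.trans ?_⟩
  refine mul_le_mul_of_nonneg_left (Nat.cast_le.mpr (Finset.card_le_card ?_)) (by positivity)
  intro y hyy
  rw [Finset.mem_filter] at hyy ⊢
  obtain ⟨hyY, hy⟩ := hyy
  refine ⟨hyY, ?_⟩
  have h8 : y₀⁻¹ * y = (t⁻¹ * y₀)⁻¹ * (t⁻¹ * y) := by group
  rw [h8, pw, sq]
  apply Finset.mul_mem_mul
  · have h9 : t⁻¹ * y₀ ∈ A := by
      have := hfA y₀ hy₀.1
      rwa [hy₀.2] at this
    have h10 : (t⁻¹ * y₀)⁻¹ ∈ (A : Set G)⁻¹ := Set.inv_mem_inv.mpr h9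
    rw [hA.inv_eq_self] at h10
    exact h10
  · have := hfA y hyY
    rwa [hy] at this

theorem mem_pow_mono (hA : IsApproximateSubgroup K (A : Set G)) {m n : ℕ} (hmn : m ≤ n) :
    pw A m ⊆ pw A n :=
  Finset.pow_subset_pow_right hA.one_mem hmn

theorem one_mem_pow (hA : IsApproximateSubgroup K (A : Set G)) (n : ℕ) : (1 : G) ∈ pw A n :=
  Finset.one_mem_pow hA.one_mem

theorem inv_mem_pow (hA : IsApproximateSubgroup K (A : Set G)) {n : ℕ} {x : G}
    (hx : x ∈ pw A n) : x⁻¹ ∈ pw A n := by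
  have h1 : (A : Finset G)⁻¹ = A := by
    apply Finset.coe_injective
    rw [Finset.coe_inv]
    exact hA.inv_eq_self
  have h2 : x⁻¹ ∈ (A ^ n)⁻¹ := Finset.inv_mem_inv hx
  rw [← inv_pow, h1] at h2
  exact h2

theorem mul_mem_pow {m n : ℕ} {x y : G} (hx : x ∈ pw A m) (hy : y ∈ pw A n) :
    x * y ∈ pw A (m + n) := by
  rw [pw, pow_add]; exact Finset.mul_mem_mul hx hy

theorem cover' (hA : IsApproximateSubgroup K (A : Set G)) {n : ℕ} (hn : 1 ≤ n) {Y : Finset G}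
    (hY : Y ⊆ pw A n) (hne : Y.Nonempty) :
    ∃ y₀ ∈ Y, ∃ Y' ⊆ Y, (∀ y ∈ Y', y₀⁻¹ * y ∈ pw A 2) ∧
      (Y.card : ℝ) ≤ K ^ (n - 1) * Y'.card := by
  obtain ⟨y₀, hy₀, h⟩ := cover hA hn hY hne
  refine ⟨y₀, hy₀, _, Finset.filter_subset _ _, ?_, h⟩
  intro y hy
  exact (Finset.mem_filter.mp hy).2

/-- Elements of `A ^ n` in a subgroup are at most `K ^ (n - 1)` times those in `A ^ 2`. -/
theorem nc_subgroup_le (hA : IsApproximateSubgroup K (A : Set G)) {n : ℕ} (hn : 1 ≤ n)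
    (H : Subgroup G) : (nc A n (H : Set G) : ℝ) ≤ K ^ (n - 1) * nc A 2 (H : Set G) := by
  have hne : (pc A n (H : Set G)).Nonempty :=
    ⟨1, by rw [mem_pc]; exact ⟨one_mem_pow hA n, H.one_mem⟩⟩
  have hsub : pc A n (H : Set G) ⊆ pw A n := Finset.filter_subset _ _
  obtain ⟨y₀, hy₀, h⟩ := cover hA hn hsub hne
  refine h.trans ?_
  have hK : 1 ≤ K := hA.one_le
  refine mul_le_mul_of_nonneg_left (Nat.cast_le.mpr ?_) (by positivity)
  rw [mem_pc] at hy₀
  apply Finset.card_le_card_of_injOn (fun y => y₀⁻¹ * y)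
  · intro y hy
    rw [Finset.mem_coe, Finset.mem_filter, mem_pc] at hy
    rw [Finset.mem_coe, mem_pc]
    exact ⟨hy.2, H.mul_mem (H.inv_mem hy₀.2) hy.1.2⟩
  · intro a _ b _ hab
    exact mul_left_cancel hab

/-- Orbit counting: the orbit of `x` under conjugation by the elements of `A ^ 2` in `H`. -/
theorem orbit_count (hA : IsApproximateSubgroup K (A : Set G)) (H : Subgroup G) (x : G) :
    (nc A 2 (H : Set G) : ℝ) ≤
      (orb A H x).card *
        (K * nc A 2 ((H ⊓ Subgroup.centralizer {x} : Subgroup G) : Set G)) := by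
  have h1 : (nc A 2 (H : Set G) : ℝ) = ∑ o ∈ orb A H x,
      (((pc A 2 (H : Set G)).filter (fun b => b * x * b⁻¹ = o)).card : ℝ) := by
    have := Finset.card_eq_sum_card_image (fun b => b * x * b⁻¹) (pc A 2 (H : Set G))
    unfold nc orb
    exact_mod_cast this
  have hK : 1 ≤ K := hA.one_le
  have h2 : ∀ o ∈ orb A H x,
      (((pc A 2 (H : Set G)).filter (fun b => b * x * b⁻¹ = o)).card : ℝ) ≤
        K * nc A 2 ((H ⊓ Subgroup.centralizer {x} : Subgroup G) : Set G) := by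
    intro o ho
    obtain ⟨b₁, hb₁, hb₂, hbo⟩ := mem_orb.mp ho
    have hne : ((pc A 2 (H : Set G)).filter (fun b => b * x * b⁻¹ = o)).Nonempty :=
      ⟨b₁, Finset.mem_filter.mpr ⟨mem_pc.mpr ⟨hb₁, hb₂⟩, hbo⟩⟩
    have hsub : (pc A 2 (H : Set G)).filter (fun b => b * x * b⁻¹ = o) ⊆ pw A 2 :=
      (Finset.filter_subset _ _).trans (Finset.filter_subset _ _)
    obtain ⟨y₀, hy₀, h⟩ := cover hA (by norm_num) hsub hne
    refine h.trans ?_
    rw [show 2 - 1 = 1 from rfl, pow_one]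
    refine mul_le_mul_of_nonneg_left (Nat.cast_le.mpr ?_) (by positivity)
    rw [Finset.mem_filter, mem_pc] at hy₀
    apply Finset.card_le_card_of_injOn (fun y => y₀⁻¹ * y)
    · intro y hy
      rw [Finset.mem_coe, Finset.mem_filter, Finset.mem_filter, mem_pc] at hy
      rw [Finset.mem_coe, mem_pc]
      refine ⟨hy.2, ?_⟩
      rw [SetLike.mem_coe, Subgroup.mem_inf]
      refine ⟨H.mul_mem (H.inv_mem hy₀.1.2) hy.1.1.2, ?_⟩
      rw [Subgroup.mem_centralizer_singleton_iff]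
      have e1 : y * x * y⁻¹ = y₀ * x * y₀⁻¹ := by rw [hy.1.2, hy₀.2]
      have e2 : y * x = y₀ * x * y₀⁻¹ * y := by
        rw [← e1]; group
      calc y₀⁻¹ * y * x = y₀⁻¹ * (y * x) := by group
        _ = y₀⁻¹ * (y₀ * x * y₀⁻¹ * y) := by rw [e2]
        _ = x * (y₀⁻¹ * y) := by group
    · intro a _ b _ hab
      exact mul_left_cancel hab
  rw [h1]
  calc _ ≤ ∑ o ∈ orb A H x,
        (K * nc A 2 ((H ⊓ Subgroup.centralizer {x} : Subgroup G) : Set G) : ℝ) :=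
      Finset.sum_le_sum h2
    _ = _ := by rw [Finset.sum_const, nsmul_eq_mul]

end Group

end Pool.Agent.Work.MP_4d2785_al
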