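import Mathlib
import Pool.Agent.Work.MP_4d2785_al.Basic

/-!
# Chains of centralisers: nilpotent and soluble pieces
-/

open scoped Pointwise Classical

namespace Pool.Agent.Work.MP_4d2785_al

section Group

variable {G : Type*} [Group G] {A : Finset G} {K q : ℝ}

/-- If the elements of `A ^ 2` in `H` commute pairwise there are at most `q` of them. -/
theorem abel (hq : ∀ H : Subgroup G, (∀ x ∈ H, ∀ y ∈ H, x * y = y * x) →
      (nc A 2 (H : Set G) : ℝ) ≤ q) (H : Subgroup G)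
    (hc : ∀ x ∈ pw A 2, x ∈ H → ∀ y ∈ pw A 2, y ∈ H → x * y = y * x) :
    (nc A 2 (H : Set G) : ℝ) ≤ q := by
  set S : Set G := {x | x ∈ pw A 2 ∧ x ∈ H} with hS
  have h1 : ∀ x ∈ Subgroup.closure S, ∀ y ∈ Subgroup.closure S, x * y = y * x := by
    have hcomm : ∀ x ∈ S, ∀ y ∈ S, x * y = y * x := fun x hx y hy => hc x hx.1 hx.2 y hy.1 hy.2
    have := Subgroup.isMulCommutative_closure hcomm
    intro x hx y hy
    have := mul_comm' (⟨x, hx⟩ : Subgroup.closure S) ⟨y, hy⟩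
    exact congrArg Subtype.val this
  refine le_trans ?_ (hq _ h1)
  apply Nat.cast_le.mpr
  apply nc_mono
  intro g hg hgH
  exact Subgroup.subset_closure ⟨hg, hgH⟩

theorem orbit_card_le (hA : IsApproximateSubgroup K (A : Set G)) (H Λ : Subgroup G) (x : G)
    (hx : x ∈ pw A 2) (h : ∀ b ∈ pw A 2, b ∈ H → b * x * b⁻¹ * x⁻¹ ∈ Λ) :
    ((orb A H x).card : ℝ) ≤
      K ^ 7 * nc A 2 (Λ : Set G) := by
  refine le_trans ?_ (nc_subgroup_le hA (n := 8) (by norm_num) Λ)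
  apply Nat.cast_le.mpr
  apply Finset.card_le_card_of_injOn (fun y => y * x⁻¹)
  · intro y hy
    rw [Finset.mem_coe, mem_orb] at hy
    obtain ⟨b, hb, hbH, rfl⟩ := hy
    rw [Finset.mem_coe, mem_pc]
    refine ⟨?_, h b hb hbH⟩
    have := mul_mem_pow (mul_mem_pow (mul_mem_pow hb hx) (inv_mem_pow hA hb))
      (inv_mem_pow hA hx)
    exact this
  · intro a _ b _ hab
    exact mul_right_cancel hab

end Group

section Alg

variable {F M : Type*} [Field F] [Ring M] [Algebra F M] [FiniteDimensional F M]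
variable {A : Finset Mˣ} {K q s : ℝ}

theorem mem_us {R : Subalgebra F M} {u : Mˣ} :
    u ∈ us R ↔ (u : M) ∈ R ∧ ((u⁻¹ : Mˣ) : M) ∈ R := Iff.rfl

theorem chain_bound (hA : IsApproximateSubgroup K (A : Set Mˣ)) (hq1 : 1 ≤ q)
    (hq : ∀ H : Subgroup Mˣ, (∀ x ∈ H, ∀ y ∈ H, x * y = y * x) →
      (nc A 2 (H : Set Mˣ) : ℝ) ≤ q) (hs : 1 ≤ s) (H₀ : Subgroup Mˣ)
    (hstep : ∀ H : Subgroup Mˣ, H ≤ H₀ →
      (∃ x ∈ pw A 2, x ∈ H ∧ ∃ y ∈ pw A 2, y ∈ H ∧ x * y ≠ y * x) →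
      ∃ x ∈ pw A 2, x ∈ H ∧ (∃ y ∈ pw A 2, y ∈ H ∧ x * y ≠ y * x) ∧
        ((orb A H x).card : ℝ) ≤ s) :
    ∀ n : ℕ, ∀ R : Subalgebra F M, Module.finrank F R ≤ n → ∀ H : Subgroup Mˣ, H ≤ H₀ →
      H ≤ us R → (nc A 2 (H : Set Mˣ) : ℝ) ≤ q * (K * s) ^ n := by
  have hK : 1 ≤ K := hA.one_le
  have hKs : 1 ≤ K * s := one_le_mul_of_one_le_of_one_le hK hs
  intro n
  induction n with
  | zero =>
    intro R hR H hH hHR
    rw [pow_zero, mul_one]
    apply abel hq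
    intro x hx hxH y hy hyH
    have h1 : Module.finrank F R = 0 := by omega
    have h2 : Subsingleton R := Module.finrank_zero_iff.mp h1
    have hx' := mem_us.mp (hHR hxH)
    have hy' := mem_us.mp (hHR hyH)
    have h3 : (⟨x, hx'.1⟩ : R) = ⟨y, hy'.1⟩ := Subsingleton.elim _ _
    have h4 : (x : M) = y := congrArg Subtype.val h3
    have h5 : x = y := Units.ext h4
    rw [h5]
  | succ n ih =>
    intro R hR H hH hHR
    by_cases hc : ∃ x ∈ pw A 2, x ∈ H ∧ ∃ y ∈ pw A 2, y ∈ H ∧ x * y ≠ y * x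
    · obtain ⟨x, hx, hxH, ⟨y, hy, hyH, hxy⟩, hcard⟩ := hstep H hH hc
      set R' : Subalgebra F M := R ⊓ Subalgebra.centralizer F {(x : M)} with hR'
      have hlt : R'.toSubmodule < R.toSubmodule := by
        refine lt_of_le_of_ne ?_ ?_
        · intro z hz
          exact hz.1
        · intro heq
          have hyR : (y : M) ∈ R.toSubmodule := (mem_us.mp (hHR hyH)).1
          rw [← heq] at hyR
          have := hyR.2
          have h6 : (x : M) * y = y * x := by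
            have h7 : (y : M) ∈ Subalgebra.centralizer F {(x : M)} := hyR.2
            rw [Subalgebra.mem_centralizer_iff] at h7
            exact h7 _ rfl
          apply hxy
          exact Units.ext h6
      have hfr : Module.finrank F R' ≤ n := by
        have := Submodule.finrank_lt_finrank_of_lt hlt
        have h8 : Module.finrank F R' < Module.finrank F R := this
        omega
      have hH' : H ⊓ Subgroup.centralizer {x} ≤ us R' := by
        intro z hz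
        have hz1 := mem_us.mp (hHR hz.1)
        have hz2 : z ∈ Subgroup.centralizer {x} := hz.2
        rw [Subgroup.mem_centralizer_singleton_iff] at hz2
        rw [mem_us]
        refine ⟨⟨hz1.1, ?_⟩, ⟨hz1.2, ?_⟩⟩
        · change (z : M) ∈ Subalgebra.centralizer F {(x : M)}
          rw [Subalgebra.mem_centralizer_iff]
          intro g hg
          rw [Set.mem_singleton_iff.mp hg]
          exact (congrArg Units.val hz2).symm
        · change ((z⁻¹ : Mˣ) : M) ∈ Subalgebra.centralizer F {(x : M)}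
          rw [Subalgebra.mem_centralizer_iff]
          intro g hg
          rw [Set.mem_singleton_iff.mp hg]
          have h9 : x * z⁻¹ = z⁻¹ * x := by
            calc x * z⁻¹ = z⁻¹ * (z * x) * z⁻¹ := by group
              _ = z⁻¹ * (x * z) * z⁻¹ := by rw [hz2]
              _ = z⁻¹ * x := by group
          exact congrArg Units.val h9
      have h10 := ih R' hfr (H ⊓ Subgroup.centralizer {x}) (inf_le_left.trans hH) hH'
      have h11 := orbit_count hA H x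
      have hnc : (0 : ℝ) ≤ nc A 2 ((H ⊓ Subgroup.centralizer {x} : Subgroup Mˣ) : Set Mˣ) := by
        positivity
      calc (nc A 2 (H : Set Mˣ) : ℝ) ≤ _ := h11
        _ ≤ s * (K * nc A 2 ((H ⊓ Subgroup.centralizer {x} : Subgroup Mˣ) : Set Mˣ)) := by
            gcongr
        _ ≤ s * (K * (q * (K * s) ^ n)) := by gcongr
        _ = q * (K * s) ^ (n + 1) := by ring
    · push Not at hc
      have h1 := abel hq H hc
      refine h1.trans ?_
      exact le_mul_of_one_le_right (by linarith) (one_le_pow₀ hKs)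

/-- The bound for a nilpotent filtration. -/
theorem nilp_bound (hA : IsApproximateSubgroup K (A : Set Mˣ)) (hq1 : 1 ≤ q)
    (hq : ∀ H : Subgroup Mˣ, (∀ x ∈ H, ∀ y ∈ H, x * y = y * x) →
      (nc A 2 (H : Set Mˣ) : ℝ) ≤ q) (Γ : ℕ → Subgroup Mˣ)
    (hΓ : ∀ j, ∀ a ∈ Γ 0, ∀ b ∈ Γ j, a * b * a⁻¹ * b⁻¹ ∈ Γ (j + 1)) (hN : ∃ N, Γ N = ⊥) :
    (nc A 2 (Γ 0 : Set Mˣ) : ℝ) ≤ q * (K * (K ^ 7 * q)) ^ (Module.finrank F M) := by
  have hK : 1 ≤ K := hA.one_le
  have hs : 1 ≤ K ^ 7 * q := one_le_mul_of_one_le_of_one_le (one_le_pow₀ hK) hq1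
  have hmain := chain_bound (F := F) (s := K ^ 7 * q) hA hq1 hq hs (Γ 0) ?_
    (Module.finrank F M) ⊤ (le_of_eq (finrank_top F M)) (Γ 0) le_rfl (by
      intro z _
      rw [mem_us]
      exact ⟨Algebra.mem_top, Algebra.mem_top⟩)
  · exact hmain
  · intro H hH hnc
    have hex : ∃ j, (nc A 2 ((H ⊓ Γ j : Subgroup Mˣ) : Set Mˣ) : ℝ) ≤ q := by
      obtain ⟨N, hN⟩ := hN
      refine ⟨N, ?_⟩
      apply abel hq
      intro x _ hxH y _ hyH
      have h1 : x ∈ Γ N := hxH.2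
      have h2 : y ∈ Γ N := hyH.2
      rw [hN, Subgroup.mem_bot] at h1 h2
      rw [h1, h2]
    have key : ∀ j, (nc A 2 ((H ⊓ Γ j : Subgroup Mˣ) : Set Mˣ) : ℝ) ≤ q → ∀ x ∈ pw A 2,
        (∀ b ∈ pw A 2, b ∈ H → b * x * b⁻¹ * x⁻¹ ∈ H ⊓ Γ j) →
        ((orb A H x).card : ℝ) ≤ K ^ 7 * q := by
      intro j hj x hx hb
      refine (orbit_card_le hA H (H ⊓ Γ j) x hx hb).trans ?_
      gcongr
    rcases Nat.eq_zero_or_pos (Nat.find hex) with h0 | hpos
    · obtain ⟨x, hx, hxH, y, hy, hyH, hxy⟩ := hnc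
      refine ⟨x, hx, hxH, ⟨y, hy, hyH, hxy⟩, ?_⟩
      have h1 := Nat.find_spec hex
      rw [h0] at h1
      refine key 0 h1 x hx ?_
      intro b _ hbH
      have h2 : b * x * b⁻¹ * x⁻¹ ∈ H :=
        H.mul_mem (H.mul_mem (H.mul_mem hbH hxH) (H.inv_mem hbH)) (H.inv_mem hxH)
      exact ⟨h2, hH h2⟩
    · obtain ⟨j, hj⟩ : ∃ j, Nat.find hex = j + 1 := ⟨Nat.find hex - 1, by omega⟩
      have h1 : ¬ (nc A 2 ((H ⊓ Γ j : Subgroup Mˣ) : Set Mˣ) : ℝ) ≤ q :=
        Nat.find_min hex (by omega)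
      have h2 : ¬ ∀ x ∈ pw A 2, x ∈ (H ⊓ Γ j : Subgroup Mˣ) → ∀ y ∈ pw A 2,
          y ∈ (H ⊓ Γ j : Subgroup Mˣ) → x * y = y * x := fun hcc => h1 (abel hq _ hcc)
      push Not at h2
      obtain ⟨x, hx, hxH, y, hy, hyH, hxy⟩ := h2
      refine ⟨x, hx, hxH.1, ⟨y, hy, hyH.1, hxy⟩, ?_⟩
      have h3 := Nat.find_spec hex
      rw [hj] at h3
      refine key (j + 1) h3 x hx ?_
      intro b _ hbH
      have h2 : b * x * b⁻¹ * x⁻¹ ∈ H :=
        H.mul_mem (H.mul_mem (H.mul_mem hbH hxH.1) (H.inv_mem hbH)) (H.inv_mem hxH.1)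
      exact ⟨h2, hΓ j b (hH hbH) x hxH.2⟩

/-- The bound for units whose commutators lie in a nilpotent filtration. -/
theorem solv_bound (hA : IsApproximateSubgroup K (A : Set Mˣ)) (hq1 : 1 ≤ q)
    (hq : ∀ H : Subgroup Mˣ, (∀ x ∈ H, ∀ y ∈ H, x * y = y * x) →
      (nc A 2 (H : Set Mˣ) : ℝ) ≤ q) (R : Subalgebra F M) (Γ : ℕ → Subgroup Mˣ)
    (hR : ∀ a ∈ us R, ∀ b ∈ us R, a * b * a⁻¹ * b⁻¹ ∈ Γ 0)
    (hΓ : ∀ j, ∀ a ∈ Γ 0, ∀ b ∈ Γ j, a * b * a⁻¹ * b⁻¹ ∈ Γ (j + 1)) (hN : ∃ N, Γ N = ⊥) :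
    (nc A 2 (us R : Set Mˣ) : ℝ) ≤ q * (K * (K ^ 7 * (q * (K * (K ^ 7 * q)) ^
      (Module.finrank F M)))) ^ (Module.finrank F M) := by
  have hK : 1 ≤ K := hA.one_le
  have hb := nilp_bound (F := F) hA hq1 hq Γ hΓ hN
  have h1 : 1 ≤ K * (K ^ 7 * q) := one_le_mul_of_one_le_of_one_le hK
    (one_le_mul_of_one_le_of_one_le (one_le_pow₀ hK) hq1)
  have hs : 1 ≤ K ^ 7 * (q * (K * (K ^ 7 * q)) ^ (Module.finrank F M)) :=
    one_le_mul_of_one_le_of_one_le (one_le_pow₀ hK)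
      (one_le_mul_of_one_le_of_one_le hq1 (one_le_pow₀ h1))
  refine chain_bound (F := F) hA hq1 hq hs (us R) ?_ (Module.finrank F M) R
    (Submodule.finrank_le (Subalgebra.toSubmodule R)) (us R) le_rfl le_rfl
  intro H hH hnc
  obtain ⟨x, hx, hxH, y, hy, hyH, hxy⟩ := hnc
  refine ⟨x, hx, hxH, ⟨y, hy, hyH, hxy⟩, ?_⟩
  refine (orbit_card_le hA H (Γ 0) x hx ?_).trans ?_
  · intro b _ hbH
    exact hR b (hH hbH) x (hH hxH)
  · gcongr

end Alg

end Pool.Agent.Work.MP_4d2785_al
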