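import Mathlib
import Pool.Agent.Work.MP_4d2785_al.Chain

/-!
# Dense pieces in proper subspaces yield dense pieces in proper subalgebras
-/

open scoped Pointwise Classical

namespace Pool.Agent.Work.MP_4d2785_al

variable {F M : Type*} [Field F] [Ring M] [Algebra F M] [FiniteDimensional F M]
variable {A : Finset Mˣ} {K : ℝ}

/-- The part of `P'` moved into `P` by `g⁻¹`. -/
noncomputable def tr {G : Type*} [Group G] (P P' : Finset G) (g : G) : Finset G :=
  P'.filter (fun p => g⁻¹ * p ∈ P)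

/-- The popular translates. -/
noncomputable def gd {G : Type*} [Group G] (P P' Ω : Finset G) (r : ℝ) : Finset G :=
  Ω.filter (fun g => r * P'.card ≤ ((tr P P' g).card : ℝ))

theorem mem_tr {G : Type*} [Group G] {P P' : Finset G} {g p : G} :
    p ∈ tr P P' g ↔ p ∈ P' ∧ g⁻¹ * p ∈ P := by
  unfold tr; rw [Finset.mem_filter]

theorem mem_gd {G : Type*} [Group G] {P P' Ω : Finset G} {r : ℝ} {g : G} :
    g ∈ gd P P' Ω r ↔ g ∈ Ω ∧ r * P'.card ≤ ((tr P P' g).card : ℝ) := by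
  unfold gd; rw [Finset.mem_filter]

/-- Popular translates. -/
theorem popular {G : Type*} [Group G] {P P' Ω : Finset G} (hΩ : ∀ p ∈ P', ∀ p' ∈ P, p * p'⁻¹ ∈ Ω)
    (hP' : P'.Nonempty) {r : ℝ} (hr0 : 0 ≤ r) (hr : 2 * (r * Ω.card) ≤ P.card) :
    (P.card : ℝ) ≤ 2 * (gd P P' Ω r).card := by
  set Gd := gd P P' Ω r with hGd
  have hpos : (0 : ℝ) < P'.card := by exact_mod_cast Finset.card_pos.mpr hP'
  -- total count
  have h1 : (P'.card : ℝ) * P.card ≤ ∑ g ∈ Ω, ((tr P P' g).card : ℝ) := by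
    have h2 : P'.card * P.card ≤ ∑ g ∈ Ω, (tr P P' g).card := by
      rw [← Finset.card_product, ← Finset.card_sigma]
      apply Finset.card_le_card_of_injOn (fun pp => ⟨pp.1 * pp.2⁻¹, pp.1⟩)
      · intro pp hpp
        rw [Finset.mem_coe, Finset.mem_product] at hpp
        rw [Finset.mem_coe, Finset.mem_sigma]
        refine ⟨hΩ _ hpp.1 _ hpp.2, ?_⟩
        rw [mem_tr]
        refine ⟨hpp.1, ?_⟩
        have : (pp.1 * pp.2⁻¹)⁻¹ * pp.1 = pp.2 := by group
        rw [this]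
        exact hpp.2
      · intro a _ b _ hab
        simp only [Sigma.mk.injEq, heq_eq_eq] at hab
        obtain ⟨hab1, hab2⟩ := hab
        rw [hab2] at hab1
        have h3 := inv_injective (mul_left_cancel hab1)
        exact Prod.ext hab2 h3
    exact_mod_cast h2
  have h2 : ∑ g ∈ Ω, ((tr P P' g).card : ℝ) ≤
      ∑ g ∈ Ω, (r * P'.card + if g ∈ Gd then (P'.card : ℝ) else 0) := by
    apply Finset.sum_le_sum
    intro g hg
    by_cases hgd : g ∈ Gd
    · rw [if_pos hgd]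
      have : ((tr P P' g).card : ℝ) ≤ P'.card := by
        have h : (tr P P' g).card ≤ P'.card := Finset.card_filter_le _ _
        exact_mod_cast h
      have h3 : 0 ≤ r * P'.card := by positivity
      linarith
    · rw [if_neg hgd, add_zero]
      by_contra hcon
      push Not at hcon
      exact hgd (mem_gd.mpr ⟨hg, hcon.le⟩)
  rw [Finset.sum_add_distrib, Finset.sum_const, nsmul_eq_mul, ← Finset.sum_filter,
    Finset.sum_const, nsmul_eq_mul] at h2
  have h3 : Ω.filter (fun g => g ∈ Gd) = Gd := by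
    ext g
    rw [Finset.mem_filter]
    constructor
    · intro h; exact h.2
    · intro h; exact ⟨(mem_gd.mp h).1, h⟩
  rw [h3] at h2
  have h4 : (P'.card : ℝ) * P.card ≤ (Ω.card : ℝ) * (r * P'.card) + Gd.card * P'.card :=
    h1.trans h2
  have h5 : (P'.card : ℝ) * P.card ≤ P'.card * (r * Ω.card + Gd.card) := by
    calc (P'.card : ℝ) * P.card ≤ _ := h4
      _ = _ := by ring
  have h6 := le_of_mul_le_mul_left h5 hpos
  linarith

/-- The greedy intersection process. -/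
theorem inner {P Ω : Finset Mˣ} {W : Submodule F M} (hPW : ∀ p ∈ P, (p : M) ∈ W)
    {r : ℝ} (hr0 : 0 < r) (hr1 : r ≤ 1) :
    ∀ n : ℕ, ∀ Wj : Submodule F M, Module.finrank F Wj ≤ n → ∀ Pj : Finset Mˣ, Pj.Nonempty →
      (∀ p ∈ Pj, (p : M) ∈ Wj) →
      ∃ W' : Submodule F M, W' ≤ Wj ∧ ∃ P' : Finset Mˣ, P' ⊆ Pj ∧ P'.Nonempty ∧
        (∀ p ∈ P', (p : M) ∈ W') ∧ r ^ n * Pj.card ≤ P'.card ∧
        (∀ g ∈ Ω, r * P'.card ≤ ((tr P P' g).card : ℝ) →
          ∀ w ∈ W', ((g⁻¹ : Mˣ) : M) * w ∈ W) := by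
  intro n
  induction n with
  | zero =>
    intro Wj hWj Pj hPj hPjW
    refine ⟨Wj, le_rfl, Pj, Finset.Subset.refl _, hPj, hPjW, by simp, ?_⟩
    intro g _ _ w hw
    have h1 : Module.finrank F Wj = 0 := by omega
    have h2 : Wj = ⊥ := Submodule.finrank_eq_zero.mp h1
    rw [h2, Submodule.mem_bot] at hw
    rw [hw, mul_zero]
    exact W.zero_mem
  | succ n ih =>
    intro Wj hWj Pj hPj hPjW
    by_cases hstop : ∀ g ∈ Ω, r * Pj.card ≤ ((tr P Pj g).card : ℝ) →
        ∀ w ∈ Wj, ((g⁻¹ : Mˣ) : M) * w ∈ W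
    · refine ⟨Wj, le_rfl, Pj, Finset.Subset.refl _, hPj, hPjW, ?_, hstop⟩
      have : r ^ (n + 1) ≤ 1 := pow_le_one₀ hr0.le hr1
      calc r ^ (n + 1) * (Pj.card : ℝ) ≤ 1 * Pj.card := by gcongr
        _ = _ := one_mul _
    · push Not at hstop
      obtain ⟨g, hg, hpop, w, hw, hwW⟩ := hstop
      set W₁ : Submodule F M := Wj ⊓ W.comap (LinearMap.mulLeft F ((g⁻¹ : Mˣ) : M)) with hW₁
      set P₁ := tr P Pj g with hP₁
      have hlt : W₁ < Wj := by
        refine lt_of_le_of_ne inf_le_left ?_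
        intro heq
        rw [← heq] at hw
        exact hwW hw.2
      have hfr : Module.finrank F W₁ ≤ n := by
        have := Submodule.finrank_lt_finrank_of_lt hlt
        omega
      have hposj : (0 : ℝ) < Pj.card := by exact_mod_cast Finset.card_pos.mpr hPj
      have hP₁c : (0 : ℝ) < P₁.card := lt_of_lt_of_le (by positivity) hpop
      have hP₁ne : P₁.Nonempty := by
        rw [← Finset.card_pos]; exact_mod_cast hP₁c
      obtain ⟨W', hW', P', hP'sub, hP'ne, hP'W, hP'c, hst⟩ := ih W₁ hfr P₁ hP₁ne (by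
        intro p hp
        rw [hP₁, mem_tr] at hp
        refine ⟨hPjW p hp.1, ?_⟩
        exact hPW _ hp.2)
      refine ⟨W', hW'.trans inf_le_left, P', hP'sub.trans (fun p hp => (mem_tr.mp hp).1), hP'ne,
        hP'W, ?_, hst⟩
      calc r ^ (n + 1) * (Pj.card : ℝ) = r ^ n * (r * Pj.card) := by ring
        _ ≤ r ^ n * P₁.card := by gcongr
        _ ≤ P'.card := hP'c

theorem finrank_map_inj {V V' : Type*} [AddCommGroup V] [Module F V] [AddCommGroup V']
    [Module F V'] (f : V →ₗ[F] V') (hf : Function.Injective f) (Z : Submodule F V) :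
    Module.finrank F (Z.map f) = Module.finrank F Z :=
  (Submodule.equivMapOfInjective f hf Z).finrank_eq.symm

/-- The transporter of `W'` into `W`, inside a subalgebra. -/
def trp (R : Subalgebra F M) (W' W : Submodule F M) : Submodule F M where
  carrier := {z | z ∈ R ∧ ∀ w ∈ W', z * w ∈ W}
  add_mem' := by
    intro a b ha hb
    refine ⟨R.add_mem ha.1 hb.1, fun w hw => ?_⟩
    rw [add_mul]; exact W.add_mem (ha.2 w hw) (hb.2 w hw)
  zero_mem' := by
    refine ⟨R.zero_mem, fun w _ => ?_⟩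
    rw [zero_mul]; exact W.zero_mem
  smul_mem' := by
    intro t a ha
    refine ⟨R.smul_mem ha.1 t, fun w hw => ?_⟩
    rw [smul_mul_assoc]; exact W.smul_mem t (ha.2 w hw)

theorem mem_trp {R : Subalgebra F M} {W' W : Submodule F M} {z : M} :
    z ∈ trp R W' W ↔ z ∈ R ∧ ∀ w ∈ W', z * w ∈ W := Iff.rfl

/-- The right stabiliser of a subspace, inside a subalgebra. -/
def stab (R : Subalgebra F M) (Z : Submodule F M) : Subalgebra F M where
  carrier := {r | r ∈ R ∧ ∀ z ∈ Z, z * r ∈ Z}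
  mul_mem' := by
    intro a b ha hb
    refine ⟨R.mul_mem ha.1 hb.1, fun z hz => ?_⟩
    rw [← mul_assoc]
    exact hb.2 _ (ha.2 z hz)
  add_mem' := by
    intro a b ha hb
    refine ⟨R.add_mem ha.1 hb.1, fun z hz => ?_⟩
    rw [mul_add]
    exact Z.add_mem (ha.2 z hz) (hb.2 z hz)
  algebraMap_mem' := by
    intro t
    refine ⟨R.algebraMap_mem t, fun z hz => ?_⟩
    rw [← Algebra.commutes, ← Algebra.smul_def]
    exact Z.smul_mem t hz

theorem mem_stab {R : Subalgebra F M} {Z : Submodule F M} {r : M} :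
    r ∈ stab R Z ↔ r ∈ R ∧ ∀ z ∈ Z, z * r ∈ Z := Iff.rfl

theorem map_mulRight_eq {Z W : Submodule F M} {p : Mˣ} (h : ∀ z ∈ Z, z * (p : M) ∈ W)
    (hd : Module.finrank F Z = Module.finrank F W) :
    ∀ w ∈ W, ∃ z ∈ Z, z * (p : M) = w := by
  have hinj : Function.Injective (LinearMap.mulRight F (p : M)) := by
    intro a b hab
    simp only [LinearMap.mulRight_apply] at hab
    exact (Units.mul_left_inj p).mp hab
  have h1 : Z.map (LinearMap.mulRight F (p : M)) ≤ W := by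
    rintro _ ⟨z, hz, rfl⟩
    exact h z hz
  have h2 : Module.finrank F (Z.map (LinearMap.mulRight F (p : M))) = Module.finrank F W := by
    rw [← hd]
    exact finrank_map_inj _ hinj Z
  have h3 := Submodule.eq_of_le_of_finrank_eq h1 h2
  intro w hw
  rw [← h3] at hw
  obtain ⟨z, hz, hzw⟩ := hw
  exact ⟨z, hz, hzw⟩

theorem step (hA : IsApproximateSubgroup K (A : Set Mˣ)) (R : Subalgebra F M)
    (W : Submodule F M) (hW : W < Subalgebra.toSubmodule R) (ρ : ℝ) (hρ0 : 0 < ρ) (hρ1 : ρ ≤ 1)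
    (h : ρ * nc A 2 (us R : Set Mˣ) ≤ nc A 2 {g : Mˣ | g ∈ us R ∧ (g : M) ∈ W}) :
    (∃ R' : Subalgebra F M, R' < R ∧
      (ρ / (2 * K ^ 3)) ^ (Module.finrank F W + 1) * nc A 2 (us R : Set Mˣ) ≤
        (2 * K ^ 3) * nc A 2 (us R' : Set Mˣ)) ∨
    (∃ Wn : Submodule F M, Wn < Subalgebra.toSubmodule R ∧
      Module.finrank F Wn < Module.finrank F W ∧
      (ρ / (2 * K ^ 3)) * nc A 2 (us R : Set Mˣ) ≤
        nc A 2 {g : Mˣ | g ∈ us R ∧ (g : M) ∈ Wn}) := by
  have hK : 1 ≤ K := hA.one_le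
  have hK3 : (1 : ℝ) ≤ K ^ 3 := one_le_pow₀ hK
  set c : ℝ := 2 * K ^ 3 with hc
  have hc0 : 0 < c := by linarith
  have hc1 : 1 ≤ c := by linarith
  set P := pc A 2 {g : Mˣ | g ∈ us R ∧ (g : M) ∈ W} with hP
  set Ω := pc A 4 (us R : Set Mˣ) with hΩ
  have hBpos : (0 : ℝ) < nc A 2 (us R : Set Mˣ) := by
    have : 0 < nc A 2 (us R : Set Mˣ) := by
      apply Finset.card_pos.mpr
      exact ⟨1, mem_pc.mpr ⟨one_mem_pow hA 2, (us R).one_mem⟩⟩
    exact_mod_cast this
  have hPc : ρ * nc A 2 (us R : Set Mˣ) ≤ P.card := h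
  have hPpos : (0 : ℝ) < P.card := lt_of_lt_of_le (by positivity) hPc
  have hPne : P.Nonempty := by
    rw [← Finset.card_pos]; exact_mod_cast hPpos
  have hΩc : (Ω.card : ℝ) ≤ K ^ 3 * nc A 2 (us R : Set Mˣ) :=
    nc_subgroup_le hA (n := 4) (by norm_num) (us R)
  set r : ℝ := ρ / c with hr
  have hr0 : 0 < r := by positivity
  have hr1 : r ≤ 1 := by
    rw [hr, div_le_one hc0]; linarith
  have hr2 : 2 * (r * Ω.card) ≤ P.card := by
    calc 2 * (r * Ω.card) ≤ 2 * (r * (K ^ 3 * nc A 2 (us R : Set Mˣ))) := by gcongr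
      _ = (r * c) * nc A 2 (us R : Set Mˣ) := by rw [hc]; ring
      _ = ρ * nc A 2 (us R : Set Mˣ) := by rw [hr, div_mul_cancel₀ _ hc0.ne']
      _ ≤ P.card := hPc
  have hPmem : ∀ p ∈ P, p ∈ pw A 2 ∧ p ∈ us R ∧ (p : M) ∈ W := by
    intro p hp
    rw [hP, mem_pc] at hp
    exact ⟨hp.1, hp.2.1, hp.2.2⟩
  have hPΩ : ∀ p ∈ P, ∀ p' ∈ P, p * p'⁻¹ ∈ Ω := by
    intro p hp p' hp'
    rw [hΩ, mem_pc]
    refine ⟨mul_mem_pow (hPmem p hp).1 (inv_mem_pow hA (hPmem p' hp').1), ?_⟩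
    exact (us R).mul_mem (hPmem p hp).2.1 ((us R).inv_mem (hPmem p' hp').2.1)
  obtain ⟨W', hW'W, P', hP'sub, hP'ne, hP'W, hP'c, hst⟩ :=
    inner (Ω := Ω) (fun p hp => (hPmem p hp).2.2) hr0 hr1 (Module.finrank F W) W le_rfl P hPne
      (fun p hp => (hPmem p hp).2.2)
  set Gd := gd P P' Ω r with hGd
  have hGdc : (P.card : ℝ) ≤ 2 * Gd.card :=
    popular (fun p hp p' hp' => hPΩ p (hP'sub hp) p' hp') hP'ne hr0.le hr2
  have hGdne : Gd.Nonempty := by
    rw [← Finset.card_pos]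
    have : (0 : ℝ) < Gd.card := by linarith
    exact_mod_cast this
  have hGdmem : ∀ g ∈ Gd, g ∈ pw A 4 ∧ g ∈ us R ∧ ∀ w ∈ W', ((g⁻¹ : Mˣ) : M) * w ∈ W := by
    intro g hg
    rw [hGd, mem_gd] at hg
    have h1 := hg.1
    rw [hΩ, mem_pc] at h1
    exact ⟨h1.1, h1.2, hst g hg.1 hg.2⟩
  obtain ⟨Z, hZ⟩ : ∃ Z : Submodule F M, Z = trp R W' W := ⟨_, rfl⟩
  have hZmem : ∀ z, z ∈ Z ↔ z ∈ R ∧ ∀ w ∈ W', z * w ∈ W := by
    intro z
    rw [hZ, mem_trp]
  have hGdZ : ∀ g ∈ Gd, ((g⁻¹ : Mˣ) : M) ∈ Z := by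
    intro g hg
    obtain ⟨_, h2, h3⟩ := hGdmem g hg
    rw [hZmem]
    exact ⟨(mem_us.mp h2).2, h3⟩
  obtain ⟨w₀, hw₀⟩ := hP'ne
  have hw₀W : ∀ z ∈ Z, z * (w₀ : M) ∈ W := fun z hz => ((hZmem z).mp hz).2 _ (hP'W _ hw₀)
  have hZle : Module.finrank F Z ≤ Module.finrank F W := by
    have hinj : Function.Injective (LinearMap.mulRight F (w₀ : M)) := by
      intro a b hab
      simp only [LinearMap.mulRight_apply] at hab
      exact (Units.mul_left_inj w₀).mp hab
    rw [← finrank_map_inj (LinearMap.mulRight F (w₀ : M)) hinj]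
    apply Submodule.finrank_mono
    rintro _ ⟨z, hz, rfl⟩
    exact hw₀W z hz
  have hWR : Module.finrank F W < Module.finrank F (Subalgebra.toSubmodule R) :=
    Submodule.finrank_lt_finrank_of_lt hW
  obtain ⟨g₀, hg₀⟩ := hGdne
  rcases eq_or_lt_of_le hZle with heq | hlt
  · left
    refine ⟨stab R Z, ?_, ?_⟩
    · refine lt_of_le_of_ne (fun r hr => (mem_stab.mp hr).1) ?_
      intro hcon
      have hRZ : Subalgebra.toSubmodule R ≤ Z := by
        intro r hr
        have hr' : r ∈ R := hr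
        have hg₀R := (mem_us.mp (hGdmem g₀ hg₀).2.1).1
        have h1 : (g₀ : M) * r ∈ stab R Z := by
          rw [hcon]; exact R.mul_mem hg₀R hr'
        have h2 := (mem_stab.mp h1).2 _ (hGdZ g₀ hg₀)
        rw [← mul_assoc, Units.inv_mul, one_mul] at h2
        exact h2
      have := Submodule.finrank_mono hRZ
      omega
    · have key : ∀ p ∈ P', p * w₀⁻¹ ∈ us (stab R Z) := by
        intro p hp
        have hpR := mem_us.mp (hPmem p (hP'sub hp)).2.1
        have hwR := mem_us.mp (hPmem w₀ (hP'sub hw₀)).2.1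
        have hpW : ∀ z ∈ Z, z * (p : M) ∈ W := fun z hz => ((hZmem z).mp hz).2 _ (hP'W _ hp)
        rw [mem_us]
        constructor
        · rw [mem_stab]
          refine ⟨R.mul_mem hpR.1 hwR.2, ?_⟩
          intro z hz
          obtain ⟨z', hz', hzz⟩ := map_mulRight_eq hw₀W heq _ (hpW z hz)
          rw [Units.val_mul, ← mul_assoc, ← hzz, mul_assoc, Units.mul_inv, mul_one]
          exact hz'
        · rw [mem_stab]
          have e1 : (p * w₀⁻¹)⁻¹ = w₀ * p⁻¹ := by group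
          rw [e1]
          refine ⟨R.mul_mem hwR.1 hpR.2, ?_⟩
          intro z hz
          obtain ⟨z', hz', hzz⟩ := map_mulRight_eq hpW heq _ (hw₀W z hz)
          rw [Units.val_mul, ← mul_assoc, ← hzz, mul_assoc, Units.mul_inv, mul_one]
          exact hz'
      have hcard : P'.card ≤ nc A 4 (us (stab R Z) : Set Mˣ) := by
        apply Finset.card_le_card_of_injOn (fun p => p * w₀⁻¹)
        · intro p hp
          rw [Finset.mem_coe, mem_pc]
          refine ⟨?_, key p hp⟩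
          exact mul_mem_pow (hPmem p (hP'sub hp)).1 (inv_mem_pow hA (hPmem w₀ (hP'sub hw₀)).1)
        · intro a _ b _ hab
          exact mul_right_cancel hab
      have h4 := nc_subgroup_le hA (n := 4) (by norm_num) (us (stab R Z))
      calc r ^ (Module.finrank F W + 1) * (nc A 2 (us R : Set Mˣ) : ℝ)
          = r ^ Module.finrank F W * (r * nc A 2 (us R : Set Mˣ)) := by ring
        _ ≤ r ^ Module.finrank F W * (ρ * nc A 2 (us R : Set Mˣ)) := by
            have : r ≤ ρ := by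
              rw [hr]; exact div_le_self hρ0.le hc1
            gcongr
        _ ≤ r ^ Module.finrank F W * P.card := by gcongr
        _ ≤ P'.card := hP'c
        _ ≤ nc A 4 (us (stab R Z) : Set Mˣ) := by exact_mod_cast hcard
        _ ≤ K ^ 3 * nc A 2 (us (stab R Z) : Set Mˣ) := h4
        _ ≤ c * nc A 2 (us (stab R Z) : Set Mˣ) := by
            have : K ^ 3 ≤ c := by rw [hc]; linarith
            gcongr
  · right
    set Y : Finset Mˣ := Gd.image (fun g => g⁻¹) with hY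
    have hYc : Y.card = Gd.card := Finset.card_image_of_injective _ inv_injective
    have hYmem : ∀ y ∈ Y, y ∈ pw A 4 ∧ y ∈ us R ∧ (y : M) ∈ Z := by
      intro y hy
      rw [hY, Finset.mem_image] at hy
      obtain ⟨g, hg, rfl⟩ := hy
      exact ⟨inv_mem_pow hA (hGdmem g hg).1, (us R).inv_mem (hGdmem g hg).2.1, hGdZ g hg⟩
    have hYne : Y.Nonempty := ⟨g₀⁻¹, Finset.mem_image.mpr ⟨g₀, hg₀, rfl⟩⟩
    obtain ⟨y₀, hy₀, Y', hY'sub, hY'A, hY'c⟩ :=
      cover' hA (n := 4) (by norm_num) (fun y hy => (hYmem y hy).1) hYne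
    obtain ⟨Wn, hWn⟩ : ∃ Wn : Submodule F M, Wn = Z.comap (LinearMap.mulLeft F (y₀ : M)) :=
      ⟨_, rfl⟩
    have hWnmem : ∀ m, m ∈ Wn ↔ (y₀ : M) * m ∈ Z := by
      intro m
      rw [hWn]; exact Iff.rfl
    have hinjL : Function.Injective (LinearMap.mulLeft F (y₀ : M)) := by
      intro a b hab
      simp only [LinearMap.mulLeft_apply] at hab
      exact (Units.mul_right_inj y₀).mp hab
    have hWnfr : Module.finrank F Wn ≤ Module.finrank F Z := by
      rw [← finrank_map_inj (LinearMap.mulLeft F (y₀ : M)) hinjL]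
      apply Submodule.finrank_mono
      rintro _ ⟨m, hm, rfl⟩
      exact (hWnmem m).mp hm
    have hWnR : Wn ≤ Subalgebra.toSubmodule R := by
      intro m hm
      have h1 : (y₀ : M) * m ∈ R := ((hZmem _).mp ((hWnmem m).mp hm)).1
      have h2 := R.mul_mem (mem_us.mp (hYmem y₀ hy₀).2.1).2 h1
      rw [← mul_assoc, Units.inv_mul, one_mul] at h2
      exact h2
    refine ⟨Wn, ?_, by omega, ?_⟩
    · refine lt_of_le_of_ne hWnR ?_
      intro hcon
      rw [hcon] at hWnfr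
      omega
    · have h5 : Y'.card ≤ nc A 2 {g : Mˣ | g ∈ us R ∧ (g : M) ∈ Wn} := by
        apply Finset.card_le_card_of_injOn (fun y => y₀⁻¹ * y)
        · intro y hy
          rw [Finset.mem_coe, mem_pc]
          refine ⟨hY'A y hy, ?_, ?_⟩
          · exact (us R).mul_mem ((us R).inv_mem (hYmem y₀ hy₀).2.1) (hYmem y (hY'sub hy)).2.1
          · rw [hWnmem, Units.val_mul, ← mul_assoc, Units.mul_inv, one_mul]
            exact (hYmem y (hY'sub hy)).2.2
        · intro a _ b _ hab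
          exact mul_left_cancel hab
      have h6 : (Gd.card : ℝ) ≤ K ^ 3 * nc A 2 {g : Mˣ | g ∈ us R ∧ (g : M) ∈ Wn} := by
        calc (Gd.card : ℝ) = Y.card := by rw [hYc]
          _ ≤ K ^ (4 - 1) * Y'.card := hY'c
          _ ≤ K ^ 3 * nc A 2 {g : Mˣ | g ∈ us R ∧ (g : M) ∈ Wn} := by
              norm_num
              gcongr
      rw [hr, div_mul_eq_mul_div, div_le_iff₀ hc0]
      calc ρ * (nc A 2 (us R : Set Mˣ) : ℝ) ≤ P.card := hPc
        _ ≤ 2 * Gd.card := hGdc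
        _ ≤ 2 * (K ^ 3 * nc A 2 {g : Mˣ | g ∈ us R ∧ (g : M) ∈ Wn}) := by gcongr
        _ = _ := by rw [hc]; ring

theorem subspace_aux (hA : IsApproximateSubgroup K (A : Set Mˣ)) (R : Subalgebra F M) :
    ∀ n : ℕ, ∀ W : Submodule F M, W < Subalgebra.toSubmodule R → Module.finrank F W ≤ n →
      ∀ ρ : ℝ, 0 < ρ → ρ ≤ 1 →
      ρ * nc A 2 (us R : Set Mˣ) ≤ nc A 2 {g : Mˣ | g ∈ us R ∧ (g : M) ∈ W} →
      ∃ R' : Subalgebra F M, R' < R ∧
        (ρ / (2 * K ^ 3) ^ (n + 2)) ^ (n + 1) * nc A 2 (us R : Set Mˣ) ≤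
          nc A 2 (us R' : Set Mˣ) := by
  have hK : 1 ≤ K := hA.one_le
  have hc1 : 1 ≤ 2 * K ^ 3 := by
    have : (1 : ℝ) ≤ K ^ 3 := one_le_pow₀ hK
    linarith
  set c : ℝ := 2 * K ^ 3 with hc
  have hc0 : 0 < c := by linarith
  -- comparison of exponents
  have hexp : ∀ (n m : ℕ) (ρ : ℝ), 0 < ρ → ρ ≤ 1 → m ≤ n →
      (ρ / c ^ (n + 2)) ^ (n + 1) * c ≤ (ρ / c) ^ (m + 1) := by
    intro n m ρ hρ0 hρ1 hmn
    have h1 : (ρ / c) ^ (n + 1) ≤ (ρ / c) ^ (m + 1) := by
      apply pow_le_pow_of_le_one (by positivity)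
      · rw [div_le_one hc0]; linarith
      · omega
    refine le_trans ?_ h1
    rw [div_pow, div_pow, ← pow_mul, div_mul_eq_mul_div, div_le_div_iff₀ (by positivity)
      (by positivity)]
    have h2 : c * c ^ (n + 1) ≤ c ^ ((n + 2) * (n + 1)) := by
      rw [← pow_succ']
      apply pow_le_pow_right₀ hc1
      nlinarith
    calc ρ ^ (n + 1) * c * c ^ (n + 1) = ρ ^ (n + 1) * (c * c ^ (n + 1)) := by ring
      _ ≤ ρ ^ (n + 1) * c ^ ((n + 2) * (n + 1)) := by gcongr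
  intro n
  induction n with
  | zero =>
    intro W hW hfr ρ hρ0 hρ1 h
    rcases step hA R W hW ρ hρ0 hρ1 h with ⟨R', hR', hle⟩ | ⟨Wn, _, hlt, _⟩
    · refine ⟨R', hR', ?_⟩
      rw [← hc] at hle
      have h1 := hexp 0 (Module.finrank F W) ρ hρ0 hρ1 hfr
      have h2 : (ρ / c ^ (0 + 2)) ^ (0 + 1) * c * nc A 2 (us R : Set Mˣ) ≤
          c * nc A 2 (us R' : Set Mˣ) :=
        (mul_le_mul_of_nonneg_right h1 (by positivity)).trans hle
      have h3 : c * ((ρ / c ^ (0 + 2)) ^ (0 + 1) * nc A 2 (us R : Set Mˣ)) ≤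
          c * nc A 2 (us R' : Set Mˣ) := by
        calc _ = (ρ / c ^ (0 + 2)) ^ (0 + 1) * c * nc A 2 (us R : Set Mˣ) := by ring
          _ ≤ _ := h2
      exact le_of_mul_le_mul_left h3 hc0
    · omega
  | succ n ih =>
    intro W hW hfr ρ hρ0 hρ1 h
    rcases step hA R W hW ρ hρ0 hρ1 h with ⟨R', hR', hle⟩ | ⟨Wn, hWn, hlt, hle⟩
    · refine ⟨R', hR', ?_⟩
      rw [← hc] at hle
      have h1 := hexp (n + 1) (Module.finrank F W) ρ hρ0 hρ1 hfr
      have h2 : (ρ / c ^ (n + 1 + 2)) ^ (n + 1 + 1) * c * nc A 2 (us R : Set Mˣ) ≤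
          c * nc A 2 (us R' : Set Mˣ) :=
        (mul_le_mul_of_nonneg_right h1 (by positivity)).trans hle
      have h3 : c * ((ρ / c ^ (n + 1 + 2)) ^ (n + 1 + 1) * nc A 2 (us R : Set Mˣ)) ≤
          c * nc A 2 (us R' : Set Mˣ) := by
        calc _ = (ρ / c ^ (n + 1 + 2)) ^ (n + 1 + 1) * c * nc A 2 (us R : Set Mˣ) := by ring
          _ ≤ _ := h2
      exact le_of_mul_le_mul_left h3 hc0
    · rw [← hc] at hle
      obtain ⟨R', hR', hle'⟩ := ih Wn hWn (by omega) (ρ / c) (by positivity)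
        (by rw [div_le_one hc0]; linarith) hle
      refine ⟨R', hR', le_trans ?_ hle'⟩
      have h4 : ρ / c / c ^ (n + 2) = ρ / c ^ (n + 1 + 2) := by
        rw [div_div, ← pow_succ']
      rw [h4]
      have h5 : (ρ / c ^ (n + 1 + 2)) ≤ 1 := by
        rw [div_le_one (by positivity)]
        exact hρ1.trans (one_le_pow₀ hc1)
      gcongr ?_ * _
      exact pow_le_pow_of_le_one (by positivity) h5 (by omega)

end Pool.Agent.Work.MP_4d2785_al
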