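import Mathlib
import Pool.Agent.Work.MP_4d2785_al.Subspace

/-!
# Robustly spanning pieces
-/

open scoped Pointwise Classical

namespace Pool.Agent.Work.MP_4d2785_al

variable {F M : Type*} [Field F] [Ring M] [Algebra F M] [FiniteDimensional F M]
variable {A : Finset Mˣ} {K : ℝ}

/-- Every proper subspace of `R` contains less than a proportion `δ` of the elements of `A ^ 2`
in the units of `R`. -/
def Robust (A : Finset Mˣ) (R : Subalgebra F M) (δ : ℝ) : Prop :=
  ∀ W : Submodule F M, W < Subalgebra.toSubmodule R →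
    (nc A 2 {g : Mˣ | g ∈ us R ∧ (g : M) ∈ W} : ℝ) < δ * nc A 2 (us R : Set Mˣ)

theorem one_step (hA : IsApproximateSubgroup K (A : Set Mˣ)) (R : Subalgebra F M) {L : ℝ}
    (hL : 1 ≤ L) (hc : 2 * K ^ 3 ≤ L ^ 3) (s : ℕ) (hnr : ¬ Robust A R ((L ^ s)⁻¹)) :
    ∃ R' : Subalgebra F M, R' < R ∧
      (nc A 2 (us R : Set Mˣ) : ℝ) ≤
        L ^ ((s + 3 * (Module.finrank F M + 1)) * Module.finrank F M) *
          nc A 2 (us R' : Set Mˣ) := by
  have hK : 1 ≤ K := hA.one_le
  have hL0 : 0 < L := by linarith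
  unfold Robust at hnr
  push Not at hnr
  obtain ⟨W, hW, hle⟩ := hnr
  have hρ0 : 0 < (L ^ s)⁻¹ := by positivity
  have hρ1 : (L ^ s)⁻¹ ≤ 1 := inv_le_one_of_one_le₀ (one_le_pow₀ hL)
  obtain ⟨R', hR', h⟩ := subspace_aux hA R (Module.finrank F W) W hW le_rfl _ hρ0 hρ1 hle
  refine ⟨R', hR', ?_⟩
  have hWR : Module.finrank F W < Module.finrank F (Subalgebra.toSubmodule R) :=
    Submodule.finrank_lt_finrank_of_lt hW
  have hRM : Module.finrank F (Subalgebra.toSubmodule R) ≤ Module.finrank F M :=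
    Submodule.finrank_le _
  set n := Module.finrank F W with hn
  set D := Module.finrank F M with hD
  have hnD : n + 1 ≤ D := by omega
  -- lower bound for the factor
  have hcpos : (0 : ℝ) < 2 * K ^ 3 := by positivity
  have h1 : (L ^ (s + 3 * (D + 1)))⁻¹ ≤ (L ^ s)⁻¹ / (2 * K ^ 3) ^ (n + 2) := by
    rw [div_eq_mul_inv, ← mul_inv]
    apply inv_anti₀ (by positivity)
    calc L ^ s * (2 * K ^ 3) ^ (n + 2) ≤ L ^ s * (L ^ 3) ^ (n + 2) := by gcongr
      _ = L ^ (s + 3 * (n + 2)) := by rw [← pow_mul, ← pow_add]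
      _ ≤ L ^ (s + 3 * (D + 1)) := pow_le_pow_right₀ hL (by omega)
  have h2 : (L ^ ((s + 3 * (D + 1)) * D))⁻¹ ≤
      ((L ^ s)⁻¹ / (2 * K ^ 3) ^ (n + 2)) ^ (n + 1) := by
    calc (L ^ ((s + 3 * (D + 1)) * D))⁻¹ = ((L ^ (s + 3 * (D + 1)))⁻¹) ^ D := by
          rw [pow_mul, inv_pow]
      _ ≤ ((L ^ (s + 3 * (D + 1)))⁻¹) ^ (n + 1) := by
          apply pow_le_pow_of_le_one (by positivity) _ hnD
          exact inv_le_one_of_one_le₀ (one_le_pow₀ hL)
      _ ≤ _ := by gcongr
  have h3 : (L ^ ((s + 3 * (D + 1)) * D))⁻¹ * (nc A 2 (us R : Set Mˣ) : ℝ) ≤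
      nc A 2 (us R' : Set Mˣ) := (mul_le_mul_of_nonneg_right h2 (by positivity)).trans h
  rw [inv_mul_le_iff₀ (by positivity)] at h3
  exact h3

theorem robustify (hA : IsApproximateSubgroup K (A : Set Mˣ)) {L : ℝ}
    (hL : 1 ≤ L) (hc : 2 * K ^ 3 ≤ L ^ 3) (s : ℕ) :
    ∀ n : ℕ, ∀ R : Subalgebra F M, Module.finrank F R ≤ n →
      ∃ R' : Subalgebra F M, R' ≤ R ∧ Robust A R' ((L ^ s)⁻¹) ∧
      (nc A 2 (us R : Set Mˣ) : ℝ) ≤
        L ^ ((s + 3 * (Module.finrank F M + 1)) * Module.finrank F M * n) *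
          nc A 2 (us R' : Set Mˣ) := by
  intro n
  induction n with
  | zero =>
    intro R hR
    refine ⟨R, le_rfl, ?_, by simp⟩
    intro W hW
    exfalso
    have h1 := Submodule.finrank_lt_finrank_of_lt hW
    have h2 : Module.finrank F (Subalgebra.toSubmodule R) = Module.finrank F R := rfl
    omega
  | succ n ih =>
    intro R hR
    by_cases hr : Robust A R ((L ^ s)⁻¹)
    · refine ⟨R, le_rfl, hr, ?_⟩
      have : (1 : ℝ) ≤ L ^ ((s + 3 * (Module.finrank F M + 1)) * Module.finrank F M * (n + 1)) :=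
        one_le_pow₀ hL
      calc (nc A 2 (us R : Set Mˣ) : ℝ) = 1 * nc A 2 (us R : Set Mˣ) := (one_mul _).symm
        _ ≤ _ := by gcongr
    · obtain ⟨R₁, hR₁, h₁⟩ := one_step hA R hL hc s hr
      have hlt : Subalgebra.toSubmodule R₁ < Subalgebra.toSubmodule R := by
        refine lt_of_le_of_ne (fun z hz => hR₁.le hz) ?_
        intro hcon
        exact hR₁.ne (Subalgebra.toSubmodule_injective hcon)
      have hfr : Module.finrank F R₁ ≤ n := by
        have := Submodule.finrank_lt_finrank_of_lt hlt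
        have h8 : Module.finrank F R₁ < Module.finrank F R := this
        omega
      obtain ⟨R', hR', hrob, h₂⟩ := ih R₁ hfr
      refine ⟨R', hR'.trans hR₁.le, hrob, ?_⟩
      have hL0 : 0 < L := by linarith
      calc (nc A 2 (us R : Set Mˣ) : ℝ) ≤ _ := h₁
        _ ≤ L ^ ((s + 3 * (Module.finrank F M + 1)) * Module.finrank F M) *
            (L ^ ((s + 3 * (Module.finrank F M + 1)) * Module.finrank F M * n) *
          nc A 2 (us R' : Set Mˣ)) := by gcongr
        _ = _ := by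
            rw [← mul_assoc, ← pow_add]
            congr 2
            ring

/-- Robustness passes to longer words. -/
theorem robust_long (hA : IsApproximateSubgroup K (A : Set Mˣ)) {R : Subalgebra F M} {δ : ℝ}
    (hδ : 0 ≤ δ) (hrob : Robust A R δ) {n : ℕ} (hn : 1 ≤ n) {W : Submodule F M}
    (hW : W < Subalgebra.toSubmodule R) :
    (nc A n {g : Mˣ | g ∈ us R ∧ (g : M) ∈ W} : ℝ) ≤
      K ^ (n - 1) * (δ * nc A 2 (us R : Set Mˣ)) := by
  have hK : 1 ≤ K := hA.one_le
  rcases Finset.eq_empty_or_nonempty (pc A n {g : Mˣ | g ∈ us R ∧ (g : M) ∈ W}) with h0 | hne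
  · have : nc A n {g : Mˣ | g ∈ us R ∧ (g : M) ∈ W} = 0 := by
      unfold nc; rw [h0]; rfl
    rw [this, Nat.cast_zero]
    positivity
  · have hsub : pc A n {g : Mˣ | g ∈ us R ∧ (g : M) ∈ W} ⊆ pw A n :=
      fun g hg => (mem_pc.mp hg).1
    obtain ⟨y₀, hy₀, Y', hY'sub, hY'A, hY'c⟩ := cover' hA hn hsub hne
    rw [mem_pc] at hy₀
    refine hY'c.trans ?_
    refine mul_le_mul_of_nonneg_left ?_ (by positivity)
    have hy₀R := mem_us.mp hy₀.2.1
    set Wn : Submodule F M := W.comap (LinearMap.mulLeft F (y₀ : M)) with hWn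
    have hWnmem : ∀ m, m ∈ Wn ↔ (y₀ : M) * m ∈ W := by
      intro m
      rw [hWn]; exact Iff.rfl
    have hWnR : Wn < Subalgebra.toSubmodule R := by
      refine lt_of_le_of_ne ?_ ?_
      · intro m hm
        have h1 : (y₀ : M) * m ∈ R := hW.le ((hWnmem m).mp hm)
        have h2 := R.mul_mem hy₀R.2 h1
        rw [← mul_assoc, Units.inv_mul, one_mul] at h2
        exact h2
      · intro hcon
        apply not_le_of_gt hW
        intro m hm
        have h1 : ((y₀⁻¹ : Mˣ) : M) * m ∈ Wn := by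
          rw [hcon]
          exact R.mul_mem hy₀R.2 hm
        have h2 := (hWnmem _).mp h1
        rw [← mul_assoc, Units.mul_inv, one_mul] at h2
        exact h2
    refine le_trans ?_ (hrob Wn hWnR).le
    apply Nat.cast_le.mpr
    apply Finset.card_le_card_of_injOn (fun y => y₀⁻¹ * y)
    · intro y hy
      have hyS := hY'sub hy
      rw [mem_pc] at hyS
      rw [Finset.mem_coe, mem_pc]
      refine ⟨hY'A y hy, ?_, ?_⟩
      · exact (us R).mul_mem ((us R).inv_mem hy₀.2.1) hyS.2.1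
      · rw [hWnmem, Units.val_mul, ← mul_assoc, Units.mul_inv, one_mul]
        exact hyS.2.2
    · intro a _ b _ hab
      exact mul_left_cancel hab

end Pool.Agent.Work.MP_4d2785_al
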