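import Mathlib
import Pool.Agent.Work.MP_4d2785_al.Robust

/-!
# Trace counting: centralisers are large in robustly spanning pieces
-/

open scoped Pointwise Classical

namespace Pool.Agent.Work.MP_4d2785_al

variable {F M : Type*} [Field F] [Ring M] [Algebra F M] [FiniteDimensional F M]
variable {A : Finset Mˣ} {K : ℝ}

/-- `p` is a linear extension of a surjective algebra homomorphism from `R` to matrices. -/
structure IsRep {k : ℕ} (R : Subalgebra F M) (p : M →ₗ[F] Matrix (Fin k) (Fin k) F) : Prop where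
  mul : ∀ a ∈ R, ∀ b ∈ R, p (a * b) = p a * p b
  one : p 1 = 1
  surj : ∀ N, ∃ z ∈ R, p z = N

theorem isRep_exists {k : ℕ} {R : Subalgebra F M} (π : R →ₐ[F] Matrix (Fin k) (Fin k) F)
    (hπ : Function.Surjective π) : ∃ p : M →ₗ[F] Matrix (Fin k) (Fin k) F, IsRep R p ∧
      ∀ z : R, p z = π z := by
  obtain ⟨p, hp⟩ := LinearMap.exists_extend (p := Subalgebra.toSubmodule R) (π.toLinearMap)
  have hp' : ∀ z : R, p z = π z := fun z => LinearMap.congr_fun hp z
  refine ⟨p, ⟨?_, ?_, ?_⟩, hp'⟩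
  · intro a ha b hb
    have h1 := hp' (⟨a, ha⟩ * ⟨b, hb⟩)
    have h2 := hp' ⟨a, ha⟩
    have h3 := hp' ⟨b, hb⟩
    rw [map_mul] at h1
    rw [h2, h3, ← h1]
    rfl
  · have h1 := hp' 1
    rw [map_one] at h1
    exact h1
  · intro N
    obtain ⟨z, hz⟩ := hπ N
    exact ⟨z, z.2, (hp' z).trans hz⟩

/-- The preimage in `R` of a subspace of matrices. -/
def pre {k : ℕ} (R : Subalgebra F M) (p : M →ₗ[F] Matrix (Fin k) (Fin k) F)
    (U : Submodule F (Matrix (Fin k) (Fin k) F)) : Submodule F M :=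
  Subalgebra.toSubmodule R ⊓ U.comap p

theorem mem_pre {k : ℕ} {R : Subalgebra F M} {p : M →ₗ[F] Matrix (Fin k) (Fin k) F}
    {U : Submodule F (Matrix (Fin k) (Fin k) F)} {z : M} :
    z ∈ pre R p U ↔ z ∈ R ∧ p z ∈ U := Iff.rfl

theorem pre_lt {k : ℕ} {R : Subalgebra F M} {p : M →ₗ[F] Matrix (Fin k) (Fin k) F}
    (hp : IsRep R p) {U : Submodule F (Matrix (Fin k) (Fin k) F)} (hU : U ≠ ⊤) :
    pre R p U < Subalgebra.toSubmodule R := by
  refine lt_of_le_of_ne inf_le_left ?_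
  intro hcon
  apply hU
  rw [Submodule.eq_top_iff']
  intro N
  obtain ⟨z, hz, hzN⟩ := hp.surj N
  have h1 : z ∈ pre R p U := by rw [hcon]; exact hz
  rw [← hzN]
  exact (mem_pre.mp h1).2

theorem trace_eq {k : ℕ} {X Y : Matrix (Fin k) (Fin k) F}
    (h : ∀ U : Matrix (Fin k) (Fin k) F, Matrix.trace (U * (X - Y)) = 0) : X = Y := by
  have h1 : X - Y = 0 := by
    apply Matrix.ext_iff_trace_mul_left.mpr
    intro U
    rw [h U, mul_zero, Matrix.trace_zero]
  exact sub_eq_zero.mp h1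

/-- Those `v` in `V` with `h * v` in `S`. -/
noncomputable def fv {G : Type*} [Group G] (S V : Finset G) (h : G) : Finset G :=
  V.filter (fun v => h * v ∈ S)

/-- Those `h` in `O` with `h * v` in `S`. -/
noncomputable def fh {G : Type*} [Group G] (S O : Finset G) (v : G) : Finset G :=
  O.filter (fun h => h * v ∈ S)

theorem mem_fv {G : Type*} [Group G] {S V : Finset G} {h v : G} :
    v ∈ fv S V h ↔ v ∈ V ∧ h * v ∈ S := by unfold fv; rw [Finset.mem_filter]

theorem mem_fh {G : Type*} [Group G] {S O : Finset G} {h v : G} :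
    h ∈ fh S O v ↔ h ∈ O ∧ h * v ∈ S := by unfold fh; rw [Finset.mem_filter]

theorem exists_pop {G : Type*} [Group G] {O S V : Finset G} {τ : ℝ}
    (hV : V.Nonempty) (hS : S.Nonempty) (hτ : 1 ≤ τ)
    (hcount : ∀ v ∈ V, (S.card : ℝ) ≤ 2 * (fh S O v).card)
    (hO : 2 * (O.card : ℝ) ≤ τ * S.card) :
    ∃ h ∈ O, (V.card : ℝ) ≤ τ * (fv S V h).card := by
  by_contra hcon
  push Not at hcon
  have hVpos : (0 : ℝ) < V.card := by exact_mod_cast Finset.card_pos.mpr hV
  have hSpos : (0 : ℝ) < S.card := by exact_mod_cast Finset.card_pos.mpr hS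
  have h1 : ∑ v ∈ V, (fh S O v).card = ∑ h ∈ O, (fv S V h).card := by
    unfold fh fv
    simp_rw [Finset.card_filter]
    exact Finset.sum_comm
  have h2 : (V.card : ℝ) * S.card ≤ 2 * ∑ h ∈ O, ((fv S V h).card : ℝ) := by
    have h3 : ∑ v ∈ V, (S.card : ℝ) ≤ ∑ v ∈ V, 2 * ((fh S O v).card : ℝ) :=
      Finset.sum_le_sum hcount
    rw [Finset.sum_const, nsmul_eq_mul, ← Finset.mul_sum] at h3
    have h4 : ∑ v ∈ V, ((fh S O v).card : ℝ) = ∑ h ∈ O, ((fv S V h).card : ℝ) := by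
      exact_mod_cast h1
    rw [h4] at h3
    exact h3
  have hOne : O.Nonempty := by
    rw [Finset.nonempty_iff_ne_empty]
    intro h0
    rw [h0, Finset.sum_empty, mul_zero] at h2
    have : 0 < (V.card : ℝ) * S.card := by positivity
    linarith
  have h5 : ∑ h ∈ O, τ * ((fv S V h).card : ℝ) < ∑ h ∈ O, (V.card : ℝ) :=
    Finset.sum_lt_sum_of_nonempty hOne hcon
  rw [Finset.sum_const, nsmul_eq_mul, ← Finset.mul_sum] at h5
  have h6 : τ * ((V.card : ℝ) * S.card) ≤ 2 * (τ * ∑ h ∈ O, ((fv S V h).card : ℝ)) := by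
    calc τ * ((V.card : ℝ) * S.card) ≤ τ * (2 * ∑ h ∈ O, ((fv S V h).card : ℝ)) := by gcongr
      _ = _ := by ring
  have h7 : τ * ((V.card : ℝ) * S.card) < 2 * (O.card * V.card) := by linarith
  have h8 : 2 * ((O.card : ℝ) * V.card) ≤ τ * (V.card * S.card) := by
    calc 2 * ((O.card : ℝ) * V.card) = (2 * O.card) * V.card := by ring
      _ ≤ (τ * S.card) * V.card := by gcongr
      _ = _ := by ring
  linarith

/-- The greedy counting argument. -/
theorem greedy {k : ℕ} {R : Subalgebra F M} {p : M →ₗ[F] Matrix (Fin k) (Fin k) F}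
    (hp : IsRep R p) {Ω S : Finset Mˣ} {t₀ : F} {τ : ℝ} (hτ : 1 ≤ τ) (hSne : S.Nonempty)
    (hS : ∀ s ∈ S, Matrix.trace (p (s : M)) = t₀)
    (hΩR : ∀ g ∈ Ω, (g : M) ∈ R)
    (hSτ : 2 * (Ω.card : ℝ) ≤ τ * S.card)
    (hW : ∀ W : Submodule F M, W < Subalgebra.toSubmodule R →
      2 * ((Ω.filter (fun g : Mˣ => (g : M) ∈ W)).card : ℝ) ≤ S.card) {B : Finset Mˣ}
    (hBR : ∀ b ∈ B, (b : M) ∈ R) (hBΩ : ∀ b ∈ B, ∀ s ∈ S, s * b⁻¹ ∈ Ω) :
    ∀ n : ℕ, ∀ U : Submodule F (Matrix (Fin k) (Fin k) F),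
      k ^ 2 ≤ Module.finrank F U + n → ∀ V : Finset Mˣ, V ⊆ B →
      (∀ v ∈ V, ∀ v' ∈ V, p (v : M) = p (v' : M) → v = v') →
      (∀ v ∈ V, ∀ v' ∈ V, ∀ u ∈ U, Matrix.trace (u * (p (v : M) - p (v' : M))) = 0) →
      (V.card : ℝ) ≤ τ ^ n := by
  have base : ∀ (n : ℕ) (V : Finset Mˣ), 
      (∀ v ∈ V, ∀ v' ∈ V, p (v : M) = p (v' : M) → v = v') →
      (∀ v ∈ V, ∀ v' ∈ V, ∀ u ∈ (⊤ : Submodule F (Matrix (Fin k) (Fin k) F)),
        Matrix.trace (u * (p (v : M) - p (v' : M))) = 0) → (V.card : ℝ) ≤ τ ^ n := by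
    intro n V hinj htr
    have h1 : V.card ≤ 1 := by
      rw [Finset.card_le_one]
      intro v hv v' hv'
      exact hinj v hv v' hv' (trace_eq (fun U => htr v hv v' hv' U Submodule.mem_top))
    have h2 : (V.card : ℝ) ≤ 1 := by exact_mod_cast h1
    exact h2.trans (one_le_pow₀ hτ)
  have hfrm : Module.finrank F (Matrix (Fin k) (Fin k) F) = k ^ 2 := by
    rw [Module.finrank_matrix]
    simp [sq]
  intro n
  induction n with
  | zero =>
    intro U hU V _ hinj htr
    have hUtop : U = ⊤ := by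
      apply Submodule.eq_top_of_finrank_eq
      have := Submodule.finrank_le U
      omega
    rw [hUtop] at htr
    exact base 0 V hinj htr
  | succ n ih =>
    intro U hU V hVB hinj htr
    by_cases hUtop : U = ⊤
    · rw [hUtop] at htr
      exact base _ V hinj htr
    rcases Finset.eq_empty_or_nonempty V with hV0 | hVne
    · rw [hV0, Finset.card_empty, Nat.cast_zero]
      positivity
    have hWlt := pre_lt hp hUtop
    have hW2 := hW _ hWlt
    have hcount : ∀ v ∈ V, (S.card : ℝ) ≤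
        2 * (fh S (Ω.filter (fun g : Mˣ => (g : M) ∉ pre R p U)) v).card := by
      intro v hv
      have h1 : S.card ≤ (Ω.filter (fun g : Mˣ => (g : M) ∈ pre R p U)).card +
          (fh S (Ω.filter (fun g : Mˣ => (g : M) ∉ pre R p U)) v).card := by
        have h2 : (S.image (fun s => s * v⁻¹)).card = S.card :=
          Finset.card_image_of_injective _ (fun a b hab => mul_right_cancel hab)
        rw [← h2]
        refine le_trans (Finset.card_le_card ?_) (Finset.card_union_le _ _)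
        intro g hg
        rw [Finset.mem_image] at hg
        obtain ⟨s, hs, rfl⟩ := hg
        have h3 := hBΩ v (hVB hv) s hs
        rw [Finset.mem_union]
        by_cases h4 : ((s * v⁻¹ : Mˣ) : M) ∈ pre R p U
        · left
          exact Finset.mem_filter.mpr ⟨h3, h4⟩
        · right
          rw [mem_fh]
          refine ⟨Finset.mem_filter.mpr ⟨h3, h4⟩, ?_⟩
          rw [inv_mul_cancel_right]
          exact hs
      have h5 : (S.card : ℝ) ≤ ((Ω.filter (fun g : Mˣ => (g : M) ∈ pre R p U)).card : ℝ) +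
          (fh S (Ω.filter (fun g : Mˣ => (g : M) ∉ pre R p U)) v).card := by exact_mod_cast h1
      linarith
    have hO : 2 * ((Ω.filter (fun g : Mˣ => (g : M) ∉ pre R p U)).card : ℝ) ≤ τ * S.card := by
      have h1 : ((Ω.filter (fun g : Mˣ => (g : M) ∉ pre R p U)).card : ℝ) ≤ Ω.card := by
        exact_mod_cast Finset.card_filter_le _ _
      linarith
    obtain ⟨h, hh, hVh⟩ := exists_pop hVne hSne hτ hcount hO
    rw [Finset.mem_filter] at hh
    have hhR : (h : M) ∈ R := hΩR h hh.1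
    have hhU : p (h : M) ∉ U := fun hc => hh.2 (mem_pre.mpr ⟨hhR, hc⟩)
    have hlt : U < U ⊔ Submodule.span F {p (h : M)} := by
      refine lt_of_le_of_ne le_sup_left ?_
      intro hcon
      apply hhU
      rw [hcon]
      exact Submodule.mem_sup_right (Submodule.mem_span_singleton_self _)
    have hfr := Submodule.finrank_lt_finrank_of_lt hlt
    have hih := ih (U ⊔ Submodule.span F {p (h : M)}) (by omega) (fv S V h)
      (fun v hv => hVB (mem_fv.mp hv).1)
      (fun v hv v' hv' => hinj v (mem_fv.mp hv).1 v' (mem_fv.mp hv').1) ?_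
    · calc (V.card : ℝ) ≤ τ * (fv S V h).card := hVh
        _ ≤ τ * τ ^ n := by gcongr
        _ = τ ^ (n + 1) := by ring
    · intro v hv v' hv' u hu
      rw [mem_fv] at hv hv'
      obtain ⟨u₁, hu₁, u₂, hu₂, rfl⟩ := Submodule.mem_sup.mp hu
      obtain ⟨t, rfl⟩ := Submodule.mem_span_singleton.mp hu₂
      have h1 := htr v hv.1 v' hv'.1 u₁ hu₁
      have h2 : Matrix.trace (p (h : M) * p (v : M)) = t₀ := by
        rw [← hp.mul _ hhR _ (hBR v (hVB hv.1)), ← Units.val_mul]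
        exact hS _ hv.2
      have h3 : Matrix.trace (p (h : M) * p (v' : M)) = t₀ := by
        rw [← hp.mul _ hhR _ (hBR v' (hVB hv'.1)), ← Units.val_mul]
        exact hS _ hv'.2
      rw [add_mul, Matrix.trace_add, h1, zero_add, smul_mul_assoc, Matrix.trace_smul, mul_sub,
        Matrix.trace_sub, h2, h3, sub_self, smul_zero]

theorem large_centralizer (hA : IsApproximateSubgroup K (A : Set Mˣ)) {R : Subalgebra F M}
    {δ : ℝ} (hδ : 0 ≤ δ) (hrob : Robust A R δ) {k : ℕ} (hk : 2 ≤ k)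
    {p : M →ₗ[F] Matrix (Fin k) (Fin k) F} (hp : IsRep R p) {l : ℕ} {x : Mˣ}
    (hx : x ∈ pw A l) (hxR : x ∈ us R) {Q : ℝ} (hQδ : δ * (2 * K ^ (l + 6) * Q) ^ (k ^ 2) ≤ 1) :
    Q ≤ nc A 2 ((us R ⊓ Subgroup.centralizer {x} : Subgroup Mˣ) : Set Mˣ) := by
  by_contra hcon
  push Not at hcon
  have hK : 1 ≤ K := hA.one_le
  set c₀ := nc A 2 ((us R ⊓ Subgroup.centralizer {x} : Subgroup Mˣ) : Set Mˣ) with hc₀
  have hc₀1 : (1 : ℝ) ≤ c₀ := by
    have : 0 < c₀ := Finset.card_pos.mpr ⟨1, mem_pc.mpr ⟨one_mem_pow hA 2, Subgroup.one_mem _⟩⟩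
    exact_mod_cast this
  have hQ1 : 1 < Q := by linarith
  set B := pc A 2 (us R : Set Mˣ) with hB
  set S := orb A (us R) x with hS
  set Ω := pc A (l + 6) (us R : Set Mˣ) with hΩ
  have hBpos : (0 : ℝ) < B.card := by
    have : 0 < B.card := Finset.card_pos.mpr ⟨1, mem_pc.mpr ⟨one_mem_pow hA 2, Subgroup.one_mem _⟩⟩
    exact_mod_cast this
  have hBS : (B.card : ℝ) ≤ S.card * (K * Q) := by
    have h1 := orbit_count hA (us R) x
    calc (B.card : ℝ) ≤ S.card * (K * c₀) := h1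
      _ ≤ S.card * (K * Q) := by gcongr
  have hSpos : (0 : ℝ) < S.card := by
    by_contra h0
    push Not at h0
    have h1 : (S.card : ℝ) = 0 := le_antisymm h0 (by positivity)
    rw [h1, zero_mul] at hBS
    linarith
  have hSne : S.Nonempty := by
    rw [← Finset.card_pos]; exact_mod_cast hSpos
  have hΩc : (Ω.card : ℝ) ≤ K ^ (l + 5) * B.card := by
    have := nc_subgroup_le hA (n := l + 6) (by omega) (us R)
    exact this
  set τ : ℝ := 2 * K ^ (l + 6) * Q with hτ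
  have hKl : (1 : ℝ) ≤ K ^ (l + 6) := one_le_pow₀ hK
  have hτ1 : 1 ≤ τ := by
    rw [hτ]
    have : (1 : ℝ) ≤ K ^ (l + 6) * Q := one_le_mul_of_one_le_of_one_le hKl hQ1.le
    nlinarith
  have hk2 : 1 ≤ k ^ 2 := Nat.one_le_pow _ _ (by omega)
  have hδτ : δ * τ ≤ 1 := by
    refine le_trans ?_ hQδ
    gcongr
    calc τ = τ ^ 1 := (pow_one τ).symm
      _ ≤ τ ^ (k ^ 2) := pow_le_pow_right₀ hτ1 hk2
  have htr : ∀ s ∈ S, Matrix.trace (p (s : M)) = Matrix.trace (p (x : M)) := by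
    intro s hs
    rw [hS, mem_orb] at hs
    obtain ⟨b, hb, hbR, rfl⟩ := hs
    have hbR' := mem_us.mp hbR
    have hxR' := mem_us.mp hxR
    rw [Units.val_mul, Units.val_mul, hp.mul _ (R.mul_mem hbR'.1 hxR'.1) _ hbR'.2,
      hp.mul _ hbR'.1 _ hxR'.1, Matrix.trace_mul_comm, ← mul_assoc, ← hp.mul _ hbR'.2 _ hbR'.1,
      Units.inv_mul, hp.one, one_mul]
  have hSmem : ∀ s ∈ S, s ∈ pw A (l + 4) ∧ s ∈ us R := by
    intro s hs
    rw [hS, mem_orb] at hs
    obtain ⟨b, hb, hbR, rfl⟩ := hs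
    refine ⟨?_, (us R).mul_mem ((us R).mul_mem hbR hxR) ((us R).inv_mem hbR)⟩
    have h1 := mul_mem_pow (mul_mem_pow hb hx) (inv_mem_pow hA hb)
    have h2 : 2 + l + 2 = l + 4 := by ring
    rw [h2] at h1
    exact h1
  have hBΩ : ∀ b ∈ B, ∀ s ∈ S, s * b⁻¹ ∈ Ω := by
    intro b hb s hs
    rw [hB, mem_pc] at hb
    rw [hΩ, mem_pc]
    refine ⟨?_, (us R).mul_mem (hSmem s hs).2 ((us R).inv_mem hb.2)⟩
    have h1 := mul_mem_pow (hSmem s hs).1 (inv_mem_pow hA hb.1)
    have h2 : l + 4 + 2 = l + 6 := by ring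
    rw [h2] at h1
    exact h1
  have hWS : ∀ W : Submodule F M, W < Subalgebra.toSubmodule R →
      2 * ((Ω.filter (fun g : Mˣ => (g : M) ∈ W)).card : ℝ) ≤ S.card := by
    intro W hW
    have h1 := robust_long hA hδ hrob (n := l + 6) (by omega) hW
    have h2 : Ω.filter (fun g : Mˣ => (g : M) ∈ W) = pc A (l + 6) {g : Mˣ | g ∈ us R ∧ (g : M) ∈ W} := by
      ext g
      rw [Finset.mem_filter, hΩ, mem_pc, mem_pc]
      constructor
      · rintro ⟨⟨h1, h2⟩, h3⟩; exact ⟨h1, h2, h3⟩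
      · rintro ⟨h1, h2, h3⟩; exact ⟨⟨h1, h2⟩, h3⟩
    rw [h2]
    have h3 : (nc A (l + 6) {g : Mˣ | g ∈ us R ∧ (g : M) ∈ W} : ℝ) ≤
        K ^ (l + 5) * (δ * B.card) := h1
    calc 2 * ((pc A (l + 6) {g : Mˣ | g ∈ us R ∧ (g : M) ∈ W}).card : ℝ)
        ≤ 2 * (K ^ (l + 5) * (δ * B.card)) := by
          have : ((pc A (l + 6) {g : Mˣ | g ∈ us R ∧ (g : M) ∈ W}).card : ℝ) ≤
            K ^ (l + 5) * (δ * B.card) := h3
          linarith
      _ ≤ 2 * (K ^ (l + 5) * (δ * (S.card * (K * Q)))) := by gcongr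
      _ = δ * τ * S.card := by rw [hτ]; ring
      _ ≤ 1 * S.card := by gcongr
      _ = S.card := one_mul _
  have hSτ : 2 * (Ω.card : ℝ) ≤ τ * S.card := by
    calc 2 * (Ω.card : ℝ) ≤ 2 * (K ^ (l + 5) * B.card) := by gcongr
      _ ≤ 2 * (K ^ (l + 5) * (S.card * (K * Q))) := by gcongr
      _ = τ * S.card := by rw [hτ]; ring
  -- representatives of the values of p on B
  have hrep : ∀ N ∈ B.image (fun b : Mˣ => p (b : M)), ∃ b ∈ B, p (b : M) = N := by
    intro N hN
    rw [Finset.mem_image] at hN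
    exact hN
  choose! rep hrepB hrepN using hrep
  set V := (B.image (fun b : Mˣ => p (b : M))).image rep with hV
  have hVB : V ⊆ B := by
    intro v hv
    rw [hV, Finset.mem_image] at hv
    obtain ⟨N, hN, rfl⟩ := hv
    exact hrepB N hN
  have hVinj : ∀ v ∈ V, ∀ v' ∈ V, p (v : M) = p (v' : M) → v = v' := by
    intro v hv v' hv' hvv
    rw [hV, Finset.mem_image] at hv hv'
    obtain ⟨N, hN, rfl⟩ := hv
    obtain ⟨N', hN', rfl⟩ := hv'
    rw [hrepN N hN, hrepN N' hN'] at hvv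
    rw [hvv]
  have hVc : V.card = (B.image (fun b : Mˣ => p (b : M))).card := by
    rw [hV]
    apply Finset.card_image_of_injOn
    intro N hN N' hN' hNN
    rw [Finset.mem_coe] at hN hN'
    have h1 := hrepN N hN
    have h2 := hrepN N' hN'
    have h3 : rep N = rep N' := hNN
    rw [← h1, ← h2, h3]
  have hVle : (V.card : ℝ) ≤ τ ^ (k ^ 2) :=
    greedy hp hτ1 hSne htr (fun g hg => (mem_us.mp (mem_pc.mp hg).2).1) hSτ hWS
      (B := B) (fun b hb => (mem_us.mp (mem_pc.mp hb).2).1) hBΩ (k ^ 2) ⊥ (by omega) V hVB hVinj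
      (by
        intro v _ v' _ u hu
        rw [Submodule.mem_bot] at hu
        rw [hu, zero_mul, Matrix.trace_zero])
  -- a large fibre
  have hfib : ∀ N ∈ B.image (fun b : Mˣ => p (b : M)),
      ((B.filter (fun b : Mˣ => p (b : M) = N)).card : ℝ) < δ * B.card := by
    intro N hN
    have hU : Submodule.span F {N} ≠ ⊤ := by
      intro hcon
      have h1 : Module.finrank F (Submodule.span F {N}) ≤ 1 := by
        have := finrank_span_le_card (R := F) ({N} : Set (Matrix (Fin k) (Fin k) F))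
        simpa using this
      rw [hcon, finrank_top, Module.finrank_matrix] at h1
      simp only [Fintype.card_fin, Module.finrank_self, mul_one] at h1
      nlinarith
    have h1 := hrob _ (pre_lt hp hU)
    refine lt_of_le_of_lt ?_ h1
    apply Nat.cast_le.mpr
    apply Finset.card_le_card
    intro b hb
    rw [Finset.mem_filter, hB, mem_pc] at hb
    rw [mem_pc]
    refine ⟨hb.1.1, hb.1.2, ?_⟩
    rw [mem_pre]
    refine ⟨(mem_us.mp hb.1.2).1, ?_⟩
    rw [hb.2]
    exact Submodule.mem_span_singleton_self _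
  have hBsum : (B.card : ℝ) = ∑ N ∈ B.image (fun b : Mˣ => p (b : M)),
      ((B.filter (fun b : Mˣ => p (b : M) = N)).card : ℝ) := by
    have := Finset.card_eq_sum_card_image (fun b : Mˣ => p (b : M)) B
    exact_mod_cast this
  have hBne : (B.image (fun b : Mˣ => p (b : M))).Nonempty := by
    apply Finset.Nonempty.image
    rw [← Finset.card_pos]; exact_mod_cast hBpos
  have h1 : (B.card : ℝ) < ∑ N ∈ B.image (fun b : Mˣ => p (b : M)), δ * (B.card : ℝ) := by
    conv_lhs => rw [hBsum]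
    exact Finset.sum_lt_sum_of_nonempty hBne hfib
  rw [Finset.sum_const, nsmul_eq_mul, ← hVc] at h1
  have h2 : (V.card : ℝ) * (δ * B.card) ≤ τ ^ (k ^ 2) * (δ * B.card) := by gcongr
  have h3 : τ ^ (k ^ 2) * (δ * B.card) ≤ B.card := by
    calc τ ^ (k ^ 2) * (δ * B.card) = (δ * τ ^ (k ^ 2)) * B.card := by ring
      _ ≤ 1 * B.card := by gcongr
      _ = B.card := one_mul _
  linarith

end Pool.Agent.Work.MP_4d2785_al
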