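import Mathlib
import Pool.Agent.Work.MP_4d2785_al.Trace
import Pool.Agent.Work.MP_4d2785_al.Dich
import Pool.Agent.Work.MP_4d2785_al.Generic
import Pool.Agent.Work.MP_4d2785_al.Lines

/-!
# Assembly
-/

open scoped Pointwise Classical

namespace Pool.Agent.Work.MP_4d2785_al

variable {F M : Type*} [Field F] [Ring M] [Algebra F M] [FiniteDimensional F M]
variable {A : Finset Mˣ} {K q : ℝ}

/-- Lift of an element of `us R` to a unit of the subalgebra. -/
def lift (R : Subalgebra F M) (g : Mˣ) (hg : g ∈ us R) : (↥R)ˣ where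
  val := ⟨g, (mem_us.mp hg).1⟩
  inv := ⟨((g⁻¹ : Mˣ) : M), (mem_us.mp hg).2⟩
  val_inv := Subtype.ext (by simp)
  inv_val := Subtype.ext (by simp)

/-- The inclusion of the units of the subalgebra. -/
def incl (R : Subalgebra F M) : (↥R)ˣ →* Mˣ := Units.map (R.val : ↥R →* M)

theorem incl_lift (R : Subalgebra F M) (g : Mˣ) (hg : g ∈ us R) : incl R (lift R g hg) = g :=
  Units.ext rfl

theorem incl_mem (R : Subalgebra F M) (u : (↥R)ˣ) : incl R u ∈ us R := by
  rw [mem_us]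
  exact ⟨(u : ↥R).2, ((u⁻¹ : (↥R)ˣ) : ↥R).2⟩

theorem incl_injective (R : Subalgebra F M) : Function.Injective (incl R) := by
  intro a b hab
  apply Units.ext
  apply Subtype.ext
  exact congrArg Units.val hab

/-- Exponent in the soluble bound. -/
def bb (D : ℕ) : ℕ := 1 + (9 + 8 * D) * D

theorem soluble_or_rep [IsAlgClosed F] (hA : IsApproximateSubgroup K (A : Set Mˣ)) (hq1 : 1 ≤ q)
    (hq : ∀ H : Subgroup Mˣ, (∀ x ∈ H, ∀ y ∈ H, x * y = y * x) →
      (nc A 2 (H : Set Mˣ) : ℝ) ≤ q) (R : Subalgebra F M) :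
    (∃ (k : ℕ) (p : M →ₗ[F] Matrix (Fin k) (Fin k) F), 2 ≤ k ∧ IsRep R p) ∨
    (nc A 2 (us R : Set Mˣ) : ℝ) ≤ (2 * K * q) ^ (bb (Module.finrank F M)) := by
  have hK : 1 ≤ K := hA.one_le
  rcases dichotomy F ↥R with ⟨k, π, hk, hπ⟩ | ⟨Γ, h0, hj, N, hN⟩
  · left
    obtain ⟨p, hp, _⟩ := isRep_exists π hπ
    exact ⟨k, p, hk, hp⟩
  · right
    have h1 := solv_bound (F := F) hA hq1 hq R (fun j => (Γ j).map (incl R)) ?_ ?_ ?_
    · refine h1.trans ?_
      set D := Module.finrank F M with hD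
      set L : ℝ := 2 * K * q with hL
      have hqL : q ≤ L := by rw [hL]; nlinarith
      have hKL : K ≤ L := by rw [hL]; nlinarith
      have hL1 : 1 ≤ L := hK.trans hKL
      have hKq : K * (K ^ 7 * q) ≤ L ^ 8 := by
        calc K * (K ^ 7 * q) = K ^ 7 * (K * q) := by ring
          _ ≤ L ^ 7 * L := by
              have : K * q ≤ L := by rw [hL]; nlinarith [mul_pos (show 0 < K by linarith) (show 0 < q by linarith)]
              gcongr
          _ = L ^ 8 := by ring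
      have h2 : K * (K ^ 7 * (q * (K * (K ^ 7 * q)) ^ D)) ≤ L ^ (8 + 8 * D) := by
        calc K * (K ^ 7 * (q * (K * (K ^ 7 * q)) ^ D))
            = (K * (K ^ 7 * q)) * (K * (K ^ 7 * q)) ^ D := by ring
          _ ≤ L ^ 8 * (L ^ 8) ^ D := by gcongr
          _ = L ^ (8 + 8 * D) := by rw [← pow_mul, ← pow_add]
      calc q * (K * (K ^ 7 * (q * (K * (K ^ 7 * q)) ^ D))) ^ D ≤ L * (L ^ (8 + 8 * D)) ^ D := by
            gcongr
        _ = L ^ (1 + (8 + 8 * D) * D) := by rw [← pow_mul, pow_add, pow_one]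
        _ ≤ L ^ (bb D) := by
            apply pow_le_pow_right₀ hL1
            unfold bb
            nlinarith
    · intro a ha b hb
      have h2 := h0 (lift R a ha) (lift R b hb)
      refine ⟨_, h2, ?_⟩
      rw [map_mul, map_mul, map_mul, map_inv, map_inv, incl_lift, incl_lift]
    · intro j a ha b hb
      obtain ⟨a', ha', rfl⟩ := ha
      obtain ⟨b', hb', rfl⟩ := hb
      refine ⟨_, hj j a' ha' b' hb', ?_⟩
      rw [map_mul, map_mul, map_mul, map_inv, map_inv]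
    · refine ⟨N, ?_⟩
      change (Γ N).map (incl R) = ⊥
      rw [hN, Subgroup.map_bot]

theorem intertwine {V V' : Type*} [AddCommGroup V] [Module F V] [AddCommGroup V'] [Module F V']
    (f : V →ₗ[F] V') (T : Module.End F V) (T' : Module.End F V') (h : ∀ v, f (T v) = T' (f v))
    (m e : ℕ) (v : V) : f (((T ^ m - 1) ^ e) v) = ((T' ^ m - 1) ^ e) (f v) := by
  have h1 : ∀ n v, f ((T ^ n) v) = (T' ^ n) (f v) := by
    intro n
    induction n with
    | zero => intro v; simp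
    | succ n ih =>
      intro v
      rw [pow_succ', pow_succ', Module.End.mul_apply, Module.End.mul_apply, h, ih]
  induction e generalizing v with
  | zero => simp
  | succ e ih =>
    rw [pow_succ, pow_succ, Module.End.mul_apply, Module.End.mul_apply, ih,
      LinearMap.sub_apply, LinearMap.sub_apply, map_sub, h1]
    simp

theorem mem_gen_iff {V : Type*} [AddCommGroup V] [Module F V] (T : Module.End F V) (v : V) :
    v ∈ Module.End.maxGenEigenspace T 1 ↔ ∃ e : ℕ, ((T - 1) ^ e) v = 0 := by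
  rw [Module.End.mem_maxGenEigenspace]
  simp

/-- The order bound in the generic element argument. -/
def mst (D : ℕ) : ℕ := (D + 1).factorial ^ (D + 2)

/-- Length bound in the generic element argument. -/
def lmax (D : ℕ) : ℕ := 4 * (D + 1) ^ 2

/-- Inner robustness exponent. -/
def s2 (D : ℕ) : ℕ := (D + D * (D + 1) * (D + 2)) * D ^ 2

/-- Loss exponent of the reduction to a robust subalgebra. -/
def ee (D s : ℕ) : ℕ := (s + 3 * (D + 1)) * D * D

/-- Exponent of the centraliser size. -/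
def tt (D : ℕ) : ℕ := ee D (s2 D) + bb D + 1

/-- Outer robustness exponent. -/
def s1 (D : ℕ) : ℕ := (lmax D + 6 + tt D) * D

/-- The final exponent. -/
def PP (D : ℕ) : ℕ := ee D (s1 D) + bb D

theorem mst_le (D : ℕ) : mst D ≤ 2 ^ (D * (D + 1) * (D + 2)) := by
  unfold mst
  have h1 : (D + 1).factorial ≤ (D + 1) ^ (D + 1) := Nat.factorial_le_pow _
  have h2 : D + 1 ≤ 2 ^ D := Nat.succ_le_of_lt Nat.lt_two_pow_self
  calc (D + 1).factorial ^ (D + 2) ≤ ((D + 1) ^ (D + 1)) ^ (D + 2) := Nat.pow_le_pow_left h1 _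
    _ ≤ (((2 ^ D)) ^ (D + 1)) ^ (D + 2) := by gcongr
    _ = 2 ^ (D * (D + 1) * (D + 2)) := by rw [← pow_mul, ← pow_mul, mul_assoc]

theorem few_bound {D k : ℕ} (hk : k ^ 2 ≤ D) : (k * mst D) ^ (k ^ 3) ≤ 2 ^ (s2 D) := by
  rcases Nat.eq_zero_or_pos k with rfl | hk0
  · simp [Nat.one_le_two_pow]
  have hkD : k ≤ D := le_trans (Nat.le_self_pow (by norm_num) k) hk
  have h1 : k ≤ 2 ^ D := hkD.trans Nat.lt_two_pow_self.le
  have h2 : k ^ 3 ≤ D ^ 2 := by
    calc k ^ 3 = k * k ^ 2 := by ring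
      _ ≤ D * D := Nat.mul_le_mul hkD hk
      _ = D ^ 2 := by ring
  calc (k * mst D) ^ (k ^ 3) ≤ (2 ^ D * 2 ^ (D * (D + 1) * (D + 2))) ^ (k ^ 3) := by
        have := mst_le D
        gcongr
    _ = (2 ^ (D + D * (D + 1) * (D + 2))) ^ (k ^ 3) := by rw [← pow_add]
    _ ≤ (2 ^ (D + D * (D + 1) * (D + 2))) ^ (D ^ 2) := by
        apply Nat.pow_le_pow_right (by positivity) h2
    _ = 2 ^ (s2 D) := by rw [← pow_mul]; rfl

theorem rep_sq_le {k : ℕ} {R : Subalgebra F M} {p : M →ₗ[F] Matrix (Fin k) (Fin k) F}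
    (hp : IsRep R p) : k ^ 2 ≤ Module.finrank F M := by
  have hsurj : Function.Surjective p := by
    intro N
    obtain ⟨z, _, hz⟩ := hp.surj N
    exact ⟨z, hz⟩
  have h1 := LinearMap.finrank_le_finrank_of_surjective (f := p) hsurj
  rw [Module.finrank_matrix] at h1
  simp only [Fintype.card_fin, Module.finrank_self, mul_one] at h1
  rw [sq]; exact h1

/-- The unit matrix attached to a unit of `R`. -/
noncomputable def pm {k : ℕ} (R : Subalgebra F M) (p : M →ₗ[F] Matrix (Fin k) (Fin k) F)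
    (hp : IsRep R p) (g : Mˣ) : (Matrix (Fin k) (Fin k) F)ˣ :=
  if hg : g ∈ us R then
    { val := p (g : M)
      inv := p ((g⁻¹ : Mˣ) : M)
      val_inv := by
        rw [← hp.mul _ (mem_us.mp hg).1 _ (mem_us.mp hg).2, Units.mul_inv, hp.one]
      inv_val := by
        rw [← hp.mul _ (mem_us.mp hg).2 _ (mem_us.mp hg).1, Units.inv_mul, hp.one] }
  else 1

theorem pm_val {k : ℕ} {R : Subalgebra F M} {p : M →ₗ[F] Matrix (Fin k) (Fin k) F}
    (hp : IsRep R p) {g : Mˣ} (hg : g ∈ us R) :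
    ((pm R p hp g : (Matrix (Fin k) (Fin k) F)ˣ) : Matrix (Fin k) (Fin k) F) = p (g : M) := by
  unfold pm; rw [dif_pos hg]

theorem pm_inv {k : ℕ} {R : Subalgebra F M} {p : M →ₗ[F] Matrix (Fin k) (Fin k) F}
    (hp : IsRep R p) {g : Mˣ} (hg : g ∈ us R) :
    (((pm R p hp g)⁻¹ : (Matrix (Fin k) (Fin k) F)ˣ) : Matrix (Fin k) (Fin k) F) =
      p ((g⁻¹ : Mˣ) : M) := by
  unfold pm; rw [dif_pos hg]; rfl

theorem pm_mul {k : ℕ} {R : Subalgebra F M} {p : M →ₗ[F] Matrix (Fin k) (Fin k) F}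
    (hp : IsRep R p) {g h : Mˣ} (hg : g ∈ us R) (hh : h ∈ us R) :
    pm R p hp g * pm R p hp h = pm R p hp (g * h) := by
  apply Units.ext
  rw [Units.val_mul, pm_val hp hg, pm_val hp hh, pm_val hp ((us R).mul_mem hg hh),
    ← hp.mul _ (mem_us.mp hg).1 _ (mem_us.mp hh).1, Units.val_mul]

/-- Transport of generalised eigenvectors of conjugation through a representation. -/
theorem transport {k m : ℕ} {R R₂ : Subalgebra F M} (hR : R₂ ≤ R)
    {p : M →ₗ[F] Matrix (Fin k) (Fin k) F} (hp : IsRep R₂ p) (g : Mˣ) (hg : g ∈ us R₂)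
    (hgR : g ∈ us R)
    (h : ∀ z (hz : z ∈ R₂), (⟨z, hR hz⟩ : ↥R) ∈
      Module.End.maxGenEigenspace ((ad F (lift R g hgR)) ^ m) 1)
    (N : Matrix (Fin k) (Fin k) F) :
    N ∈ Module.End.maxGenEigenspace ((ad F (pm R₂ p hp g)) ^ m) 1 := by
  obtain ⟨z, hz, rfl⟩ := hp.surj N
  obtain ⟨e, he⟩ := (mem_gen_iff _ _).mp (h z hz)
  rw [mem_gen_iff]
  refine ⟨e, ?_⟩
  -- the inclusion intertwines
  have h1 := intertwine (Subalgebra.inclusion hR).toLinearMap (ad F (lift R₂ g hg))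
    (ad F (lift R g hgR)) (by
      intro v
      apply Subtype.ext
      simp only [ad_apply]
      rfl) m e ⟨z, hz⟩
  have h2 : (Subalgebra.inclusion hR).toLinearMap ⟨z, hz⟩ = (⟨z, hR hz⟩ : ↥R) := rfl
  rw [h2, he] at h1
  have h3 : ((ad F (lift R₂ g hg) ^ m - 1) ^ e) (⟨z, hz⟩ : ↥R₂) = 0 := by
    have hinj : Function.Injective (Subalgebra.inclusion hR).toLinearMap :=
      Subalgebra.inclusion_injective hR
    apply hinj
    rw [h1, map_zero]
  have h4 := intertwine (p ∘ₗ R₂.val.toLinearMap) (ad F (lift R₂ g hg))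
    (ad F (pm R₂ p hp g)) (by
      intro v
      simp only [ad_apply, LinearMap.comp_apply]
      rw [pm_val hp hg, pm_inv hp hg]
      have e1 : (R₂.val.toLinearMap (((lift R₂ g hg : (↥R₂)ˣ) : ↥R₂) * v *
          (((lift R₂ g hg)⁻¹ : (↥R₂)ˣ) : ↥R₂)) : M) = (g : M) * (v : M) * ((g⁻¹ : Mˣ) : M) := rfl
      have e2 : (R₂.val.toLinearMap v : M) = (v : M) := rfl
      rw [e1, e2, hp.mul _ (R₂.mul_mem (mem_us.mp hg).1 v.2) _ (mem_us.mp hg).2,
        hp.mul _ (mem_us.mp hg).1 _ v.2]) m e ⟨z, hz⟩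
  rw [h3, map_zero] at h4
  exact h4.symm

theorem no_robust_rep [IsAlgClosed F] (hA : IsApproximateSubgroup K (A : Set Mˣ)) (hq1 : 1 ≤ q)
    (hq : ∀ H : Subgroup Mˣ, (∀ x ∈ H, ∀ y ∈ H, x * y = y * x) →
      (nc A 2 (H : Set Mˣ) : ℝ) ≤ q) {R : Subalgebra F M}
    (hrob : Robust A R (((2 * K * q) ^ (s1 (Module.finrank F M)))⁻¹)) {k : ℕ} (hk : 2 ≤ k)
    {p : M →ₗ[F] Matrix (Fin k) (Fin k) F} (hp : IsRep R p) : False := by
  have hK : 1 ≤ K := hA.one_le
  obtain ⟨D, hD⟩ : ∃ D, D = Module.finrank F M := ⟨_, rfl⟩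
  rw [← hD] at hrob
  obtain ⟨L, hL⟩ : ∃ L : ℝ, L = 2 * K * q := ⟨_, rfl⟩
  rw [← hL] at hrob
  have hKL : K ≤ L := by rw [hL]; nlinarith
  have h2KL : 2 * K ≤ L := by rw [hL]; nlinarith
  have hL2 : 2 ≤ L := by linarith
  have hL1 : 1 ≤ L := by linarith
  have hL0 : 0 < L := by linarith
  have hc : 2 * K ^ 3 ≤ L ^ 3 := by
    calc 2 * K ^ 3 ≤ (2 * K) ^ 3 := by nlinarith [pow_pos (show 0 < K by linarith) 3]
      _ ≤ L ^ 3 := by gcongr
  have hkD : k ^ 2 ≤ D := by rw [hD]; exact rep_sq_le hp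
  -- the generic element
  have hRD : Module.finrank F ↥R ≤ D := by
    rw [hD]; exact Submodule.finrank_le (Subalgebra.toSubmodule R)
  obtain ⟨x', hx'E, hgen⟩ := exists_generic F ↥R D hRD
    (fun l => {u : (↥R)ˣ | incl R u ∈ pw A l})
    (by
      change incl R 1 ∈ pw A 0
      rw [map_one]; exact one_mem_pow hA 0)
    (by
      intro l l' hll u hu
      exact mem_pow_mono hA hll hu)
    (by
      intro l x y hx hy
      change incl R (x * y) ∈ pw A (l + 4)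
      rw [map_mul]
      exact mul_mem_pow hx hy)
  obtain ⟨x, hx⟩ : ∃ x, x = incl R x' := ⟨_, rfl⟩
  have hxl : x ∈ pw A (lmax D) := by rw [hx]; exact hx'E
  have hxR : x ∈ us R := by rw [hx]; exact incl_mem R x'
  have hδ0 : 0 ≤ (L ^ (s1 D))⁻¹ := by positivity
  -- the centraliser is large
  have hlarge : L ^ (tt D) ≤
      nc A 2 ((us R ⊓ Subgroup.centralizer {x} : Subgroup Mˣ) : Set Mˣ) := by
    apply large_centralizer hA hδ0 hrob hk hp hxl hxR
    rw [inv_mul_le_iff₀ (by positivity), mul_one]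
    have h1 : 2 * K ^ (lmax D + 6) * L ^ (tt D) ≤ L ^ (lmax D + 6 + tt D) := by
      have h2 : 2 * K ^ (lmax D + 6) ≤ L ^ (lmax D + 6) := by
        calc 2 * K ^ (lmax D + 6) ≤ 2 ^ (lmax D + 6) * K ^ (lmax D + 6) := by
              have : (2 : ℝ) ≤ 2 ^ (lmax D + 6) := by
                calc (2 : ℝ) = 2 ^ 1 := by norm_num
                  _ ≤ 2 ^ (lmax D + 6) := pow_le_pow_right₀ (by norm_num) (by omega)
              gcongr
          _ = (2 * K) ^ (lmax D + 6) := by rw [mul_pow]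
          _ ≤ L ^ (lmax D + 6) := by gcongr
      rw [pow_add L (lmax D + 6)]
      gcongr
    calc (2 * K ^ (lmax D + 6) * L ^ (tt D)) ^ (k ^ 2)
        ≤ (L ^ (lmax D + 6 + tt D)) ^ (k ^ 2) := by gcongr
      _ = L ^ ((lmax D + 6 + tt D) * k ^ 2) := by rw [← pow_mul]
      _ ≤ L ^ (s1 D) := by
          apply pow_le_pow_right₀ hL1
          unfold s1
          exact Nat.mul_le_mul_left _ hkD
  set R₁ : Subalgebra F M := R ⊓ Subalgebra.centralizer F {(x : M)} with hR₁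
  have hus : ∀ g, g ∈ us R ⊓ Subgroup.centralizer {x} → g ∈ us R₁ := by
    intro z hz
    have hz1 := mem_us.mp hz.1
    have hz2 : z ∈ Subgroup.centralizer {x} := hz.2
    rw [Subgroup.mem_centralizer_singleton_iff] at hz2
    rw [mem_us]
    refine ⟨⟨hz1.1, ?_⟩, ⟨hz1.2, ?_⟩⟩
    · change (z : M) ∈ Subalgebra.centralizer F {(x : M)}
      rw [Subalgebra.mem_centralizer_iff]
      intro g hg
      rw [Set.mem_singleton_iff.mp hg]
      exact (congrArg Units.val hz2).symm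
    · change ((z⁻¹ : Mˣ) : M) ∈ Subalgebra.centralizer F {(x : M)}
      rw [Subalgebra.mem_centralizer_iff]
      intro g hg
      rw [Set.mem_singleton_iff.mp hg]
      have h9 : x * z⁻¹ = z⁻¹ * x := by
        calc x * z⁻¹ = z⁻¹ * (z * x) * z⁻¹ := by group
          _ = z⁻¹ * (x * z) * z⁻¹ := by rw [hz2]
          _ = z⁻¹ * x := by group
      exact congrArg Units.val h9
  have hlarge1 : L ^ (tt D) ≤ nc A 2 (us R₁ : Set Mˣ) := by
    refine hlarge.trans ?_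
    apply Nat.cast_le.mpr
    exact nc_mono (fun g _ hg => hus g hg)
  have hR₁D : Module.finrank F R₁ ≤ D := by
    rw [hD]; exact Submodule.finrank_le (Subalgebra.toSubmodule R₁)
  obtain ⟨R₂, hR₂, hrob₂, hle₂⟩ := robustify hA hL1 hc (s2 D) D R₁ hR₁D
  have hbig : L ^ (bb D + 1) ≤ nc A 2 (us R₂ : Set Mˣ) := by
    have h1 : L ^ (tt D) ≤ L ^ (ee D (s2 D)) * nc A 2 (us R₂ : Set Mˣ) := by
      refine hlarge1.trans (hle₂.trans (le_of_eq ?_))
      rw [← hD]; rfl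
    have h2 : L ^ (tt D) = L ^ (ee D (s2 D)) * L ^ (bb D + 1) := by
      rw [← pow_add]; rfl
    rw [h2] at h1
    exact le_of_mul_le_mul_left h1 (by positivity)
  rcases soluble_or_rep hA hq1 hq R₂ with ⟨k₂, p₂, hk₂, hp₂⟩ | hsol
  · -- few lines
    have hk₂D : k₂ ^ 2 ≤ D := by rw [hD]; exact rep_sq_le hp₂
    have hBne : (pc A 2 (us R₂ : Set Mˣ)).Nonempty :=
      ⟨1, mem_pc.mpr ⟨one_mem_pow hA 2, Subgroup.one_mem _⟩⟩
    have hBpos : (0 : ℝ) < nc A 2 (us R₂ : Set Mˣ) := by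
      exact_mod_cast Finset.card_pos.mpr hBne
    have hδ₂1 : (L ^ (s2 D))⁻¹ ≤ 1 := inv_le_one_of_one_le₀ (one_le_pow₀ hL1)
    have hR₂R : R₂ ≤ R := hR₂.trans inf_le_left
    have husR : ∀ g, g ∈ us R₂ → g ∈ us R := by
      intro g hg
      exact mem_us.mpr ⟨hR₂R (mem_us.mp hg).1, hR₂R (mem_us.mp hg).2⟩
    have hcomm : ∀ z, z ∈ R₂ → (x : M) * z = z * (x : M) := by
      intro z hz
      have h1 : z ∈ Subalgebra.centralizer F {(x : M)} := (hR₂ hz).2
      rw [Subalgebra.mem_centralizer_iff] at h1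
      exact h1 _ rfl
    obtain ⟨y₀, hy₀, hcard⟩ := few_lines (k := k₂) (m := mst D) (by omega)
      (Nat.one_le_iff_ne_zero.mpr (by unfold mst; positivity))
      (pc A 2 (us R₂ : Set Mˣ)) hBne (pm R₂ p₂ hp₂)
      (by
        by_contra hU
        have h1 := hrob₂ _ (pre_lt hp₂ hU)
        have h2 : nc A 2 (us R₂ : Set Mˣ) ≤ nc A 2 {g : Mˣ | g ∈ us R₂ ∧ (g : M) ∈
            pre R₂ p₂ (Submodule.span F ((fun i => ((pm R₂ p₂ hp₂ i :
              (Matrix (Fin k₂) (Fin k₂) F)ˣ) : Matrix (Fin k₂) (Fin k₂) F)) ''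
              (pc A 2 (us R₂ : Set Mˣ) : Set Mˣ)))} := by
          apply nc_mono
          intro g hg hgR
          refine ⟨hgR, ?_⟩
          rw [mem_pre]
          refine ⟨(mem_us.mp hgR).1, ?_⟩
          apply Submodule.subset_span
          refine ⟨g, ?_, pm_val hp₂ hgR⟩
          rw [Finset.mem_coe, mem_pc]
          exact ⟨hg, hgR⟩
        have h3 : (nc A 2 (us R₂ : Set Mˣ) : ℝ) < (L ^ (s2 D))⁻¹ * nc A 2 (us R₂ : Set Mˣ) := by
          refine lt_of_le_of_lt ?_ h1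
          exact_mod_cast h2
        have h4 : (L ^ (s2 D))⁻¹ * (nc A 2 (us R₂ : Set Mˣ) : ℝ) ≤ nc A 2 (us R₂ : Set Mˣ) := by
          calc (L ^ (s2 D))⁻¹ * (nc A 2 (us R₂ : Set Mˣ) : ℝ) ≤
              1 * nc A 2 (us R₂ : Set Mˣ) := by gcongr
            _ = _ := one_mul _
        linarith)
      (by
        intro y hy b hb N
        rw [mem_pc] at hy hb
        rw [pm_mul hp₂ hy.2 hb.2]
        have hyb : y * b ∈ us R₂ := (us R₂).mul_mem hy.2 hb.2
        have hyb4 : y * b ∈ pw A 4 := mul_mem_pow hy.1 hb.1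
        apply transport hR₂R hp₂ (y * b) hyb (husR _ hyb)
        intro z hz
        apply hgen (lift R (y * b) (husR _ hyb))
        · change incl R (lift R (y * b) (husR _ hyb)) ∈ pw A 4
          rw [incl_lift]; exact hyb4
        · apply incl_injective R
          rw [map_mul, map_mul, incl_lift, ← hx]
          apply Units.ext
          rw [Units.val_mul, Units.val_mul]
          exact (hcomm _ (mem_us.mp hyb).1).symm
        · apply Subtype.ext
          change ((x' : ↥R) : M) * z = z * ((x' : ↥R) : M)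
          have h1 : ((x' : ↥R) : M) = (x : M) := by rw [hx]; rfl
          rw [h1]
          exact hcomm z hz)
    rw [mem_pc] at hy₀
    have hU : Submodule.span F {p₂ (y₀ : M)} ≠ ⊤ := by
      intro hcon
      have h1 : Module.finrank F (Submodule.span F {p₂ (y₀ : M)}) ≤ 1 := by
        have := finrank_span_le_card (R := F) ({p₂ (y₀ : M)} : Set (Matrix (Fin k₂) (Fin k₂) F))
        simpa using this
      rw [hcon, finrank_top, Module.finrank_matrix] at h1
      simp only [Fintype.card_fin, Module.finrank_self, mul_one] at h1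
      nlinarith
    have h1 := hrob₂ _ (pre_lt hp₂ hU)
    have h2 : (((pc A 2 (us R₂ : Set Mˣ)).filter (fun y => ∃ c : F,
        ((pm R₂ p₂ hp₂ y : (Matrix (Fin k₂) (Fin k₂) F)ˣ) : Matrix (Fin k₂) (Fin k₂) F) =
        c • ((pm R₂ p₂ hp₂ y₀ : (Matrix (Fin k₂) (Fin k₂) F)ˣ) :
          Matrix (Fin k₂) (Fin k₂) F))).card : ℝ) ≤
        nc A 2 {g : Mˣ | g ∈ us R₂ ∧ (g : M) ∈ pre R₂ p₂ (Submodule.span F {p₂ (y₀ : M)})} := by
      apply Nat.cast_le.mpr
      apply Finset.card_le_card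
      intro g hg
      rw [Finset.mem_filter, mem_pc] at hg
      obtain ⟨⟨hg1, hg2⟩, c, hgc⟩ := hg
      rw [mem_pc]
      refine ⟨hg1, hg2, ?_⟩
      rw [mem_pre]
      refine ⟨(mem_us.mp hg2).1, ?_⟩
      rw [pm_val hp₂ hg2, pm_val hp₂ hy₀.2] at hgc
      rw [hgc]
      exact Submodule.smul_mem _ _ (Submodule.mem_span_singleton_self _)
    have h3 : (nc A 2 (us R₂ : Set Mˣ) : ℝ) ≤ ((k₂ * mst D) ^ (k₂ ^ 3) : ℕ) *
        (nc A 2 {g : Mˣ | g ∈ us R₂ ∧ (g : M) ∈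
          pre R₂ p₂ (Submodule.span F {p₂ (y₀ : M)})} : ℝ) := by
      have h4 : (nc A 2 (us R₂ : Set Mˣ) : ℝ) ≤ ((k₂ * mst D) ^ (k₂ ^ 3) : ℕ) *
        (((pc A 2 (us R₂ : Set Mˣ)).filter (fun y => ∃ c : F,
        ((pm R₂ p₂ hp₂ y : (Matrix (Fin k₂) (Fin k₂) F)ˣ) : Matrix (Fin k₂) (Fin k₂) F) =
        c • ((pm R₂ p₂ hp₂ y₀ : (Matrix (Fin k₂) (Fin k₂) F)ˣ) :
          Matrix (Fin k₂) (Fin k₂) F))).card : ℝ) := by
        exact_mod_cast hcard
      refine h4.trans ?_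
      gcongr
    have h5 : (((k₂ * mst D) ^ (k₂ ^ 3) : ℕ) : ℝ) ≤ L ^ (s2 D) := by
      calc (((k₂ * mst D) ^ (k₂ ^ 3) : ℕ) : ℝ) ≤ ((2 ^ (s2 D) : ℕ) : ℝ) := by
            exact_mod_cast few_bound hk₂D
        _ = (2 : ℝ) ^ (s2 D) := by push_cast; ring
        _ ≤ L ^ (s2 D) := by gcongr
    have h6 : (nc A 2 (us R₂ : Set Mˣ) : ℝ) < nc A 2 (us R₂ : Set Mˣ) := by
      calc (nc A 2 (us R₂ : Set Mˣ) : ℝ) ≤ _ := h3
        _ ≤ L ^ (s2 D) * (nc A 2 {g : Mˣ | g ∈ us R₂ ∧ (g : M) ∈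
          pre R₂ p₂ (Submodule.span F {p₂ (y₀ : M)})} : ℝ) := by gcongr
        _ < L ^ (s2 D) * ((L ^ (s2 D))⁻¹ * nc A 2 (us R₂ : Set Mˣ)) := by gcongr
        _ = _ := by rw [← mul_assoc, mul_inv_cancel₀ (by positivity), one_mul]
    exact lt_irrefl _ h6
  · rw [← hD, ← hL] at hsol
    have h1 : L ^ (bb D + 1) ≤ L ^ (bb D) := hbig.trans hsol
    have h2 : L ^ (bb D) < L ^ (bb D + 1) := by
      apply pow_lt_pow_right₀ (by linarith)
      omega
    linarith

theorem main_bound [IsAlgClosed F] (hA : IsApproximateSubgroup K (A : Set Mˣ)) (hq1 : 1 ≤ q)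
    (hq : ∀ H : Subgroup Mˣ, (∀ x ∈ H, ∀ y ∈ H, x * y = y * x) →
      (nc A 2 (H : Set Mˣ) : ℝ) ≤ q) :
    (nc A 2 Set.univ : ℝ) ≤ (2 * K * q) ^ (PP (Module.finrank F M)) := by
  have hK : 1 ≤ K := hA.one_le
  obtain ⟨D, hD⟩ : ∃ D, D = Module.finrank F M := ⟨_, rfl⟩
  obtain ⟨L, hL⟩ : ∃ L : ℝ, L = 2 * K * q := ⟨_, rfl⟩
  have h2KL : 2 * K ≤ L := by rw [hL]; nlinarith
  have hL2 : 2 ≤ L := by linarith
  have hL1 : 1 ≤ L := by linarith
  have hL0 : 0 < L := by linarith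
  have hc : 2 * K ^ 3 ≤ L ^ 3 := by
    calc 2 * K ^ 3 ≤ (2 * K) ^ 3 := by nlinarith [pow_pos (show 0 < K by linarith) 3]
      _ ≤ L ^ 3 := by gcongr
  obtain ⟨R, _, hrob, hle⟩ := robustify hA hL1 hc (s1 D) D (⊤ : Subalgebra F M)
    (by rw [hD]; exact le_of_eq (finrank_top F M))
  have h1 : (nc A 2 Set.univ : ℝ) ≤ nc A 2 (us (⊤ : Subalgebra F M) : Set Mˣ) := by
    apply Nat.cast_le.mpr
    apply nc_mono
    intro g _ _
    exact mem_us.mpr ⟨Algebra.mem_top, Algebra.mem_top⟩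
  rcases soluble_or_rep hA hq1 hq R with ⟨k, p, hk, hp⟩ | hsol
  · exfalso
    rw [hL, hD] at hrob
    exact no_robust_rep hA hq1 hq hrob hk hp
  · rw [← hL, ← hD] at hsol ⊢
    calc (nc A 2 Set.univ : ℝ) ≤ _ := h1
      _ ≤ _ := hle
      _ ≤ L ^ (ee D (s1 D)) * L ^ (bb D) := by
          rw [← hD]
          have : L ^ ((s1 D + 3 * (D + 1)) * D * D) = L ^ (ee D (s1 D)) := rfl
          rw [this]
          gcongr
      _ = L ^ (PP D) := by rw [← pow_add]; rfl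

end Pool.Agent.Work.MP_4d2785_al
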